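import Mathlib

set_option autoImplicit false

namespace Pool.Agent.Helper47.Baker

open Finset

/-- words of length `n` in the language `L` -/
def Ln (L : Set (List Bool)) (n : ℕ) : Set (List Bool) := {w | w ∈ L ∧ w.length = n}

/-- number of words -/
noncomputable def NN (L : Set (List Bool)) (n : ℕ) : ℕ := (Ln L n).ncard

lemma finite_len (n : ℕ) : {w : List Bool | w.length = n}.Finite := List.finite_length_eq _ n

lemma finite_Ln (L : Set (List Bool)) (n : ℕ) : (Ln L n).Finite :=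
  (finite_len n).subset fun _ hw => hw.2

/-- factor closed languages -/
def Factorial (L : Set (List Bool)) : Prop := ∀ a b c : List Bool, a ++ b ++ c ∈ L → b ∈ L

lemma ncard_append_le (L : Set (List Bool)) {A B : Set (List Bool)} (hA : A.Finite) (hB : B.Finite)
    (S : Set (List Bool)) (h : ∀ w ∈ S, ∃ a ∈ A, ∃ b ∈ B, w = a ++ b) :
    S.Finite ∧ S.ncard ≤ A.ncard * B.ncard := by
  have h1 : S ⊆ (fun p : List Bool × List Bool => p.1 ++ p.2) '' (A ×ˢ B) := by
    intro w hw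
    obtain ⟨a, ha, b, hb, rfl⟩ := h w hw
    exact ⟨(a, b), ⟨ha, hb⟩, rfl⟩
  have hf := hA.prod hB
  refine ⟨(hf.image _).subset h1, ?_⟩
  refine (Set.ncard_le_ncard h1 (hf.image _)).trans ((Set.ncard_image_le hf).trans ?_)
  rw [Set.ncard_prod]

lemma NN_submul {L : Set (List Bool)} (hL : Factorial L) (m n : ℕ) :
    NN L (m + n) ≤ NN L m * NN L n := by
  refine (ncard_append_le L (finite_Ln L m) (finite_Ln L n) (Ln L (m + n)) ?_).2
  rintro w ⟨hw, hlen⟩
  refine ⟨w.take m, ⟨?_, ?_⟩, w.drop m, ⟨?_, ?_⟩, (List.take_append_drop m w).symm⟩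
  · apply hL [] (w.take m) (w.drop m)
    simpa using hw
  · rw [List.length_take]; omega
  · apply hL (w.take m) (w.drop m) []
    simpa using hw
  · rw [List.length_drop]; omega

/-- decomposition of a word with many marked blocks -/
inductive Dec (M : ℕ → Set (List Bool)) (m : ℕ) : List Bool → ℤ → Prop
  | base (w : List Bool) (T : ℤ) (h : T ≤ 0) : Dec M m w T
  | step (g b w : List Bool) (r : ℕ) (T : ℤ) (hr : m ≤ r) (hb : b ∈ M r)
      (h : Dec M m w (T - 2 * r)) : Dec M m (g ++ b ++ w) T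

/-- words with a decomposition -/
def WS (L : Set (List Bool)) (M : ℕ → Set (List Bool)) (m n : ℕ) (T : ℤ) : Set (List Bool) :=
  {w | w ∈ L ∧ w.length = n ∧ Dec M m w T}

lemma finite_WS (L : Set (List Bool)) (M : ℕ → Set (List Bool)) (m n : ℕ) (T : ℤ) :
    (WS L M m n T).Finite := (finite_len n).subset fun _ hw => hw.2.1

lemma WS_rec {L : Set (List Bool)} (hL : Factorial L) {M : ℕ → Set (List Bool)}
    (hM : ∀ r, ∀ b ∈ M r, b.length = 2 * r) (m n : ℕ) {T : ℤ} (hT : 0 < T) :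
    (WS L M m n T).ncard ≤ ∑ q ∈ (range (n + 1) ×ˢ Finset.Ico m (n + 1)).filter
        (fun q => q.1 + 2 * q.2 ≤ n),
      NN L q.1 * (M q.2 ∩ L).ncard * (WS L M m (n - q.1 - 2 * q.2) (T - 2 * q.2)).ncard := by
  classical
  have hMf : ∀ r, (M r ∩ L).Finite := fun r => (finite_len (2 * r)).subset fun b hb => hM r b hb.1
  set Q := (range (n + 1) ×ˢ Finset.Ico m (n + 1)).filter (fun q => q.1 + 2 * q.2 ≤ n) with hQ
  let S : ℕ × ℕ → Set (List Bool) := fun q => {w | ∃ g ∈ Ln L q.1, ∃ b ∈ M q.2 ∩ L,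
    ∃ w' ∈ WS L M m (n - q.1 - 2 * q.2) (T - 2 * q.2), w = g ++ b ++ w'}
  have hS : ∀ q, (S q).Finite ∧ (S q).ncard ≤ NN L q.1 * (M q.2 ∩ L).ncard *
      (WS L M m (n - q.1 - 2 * q.2) (T - 2 * q.2)).ncard := by
    intro q
    have h1 := ncard_append_le L (finite_Ln L q.1) (hMf q.2)
      {w | ∃ g ∈ Ln L q.1, ∃ b ∈ M q.2 ∩ L, w = g ++ b} (fun w hw => hw)
    have h2 := ncard_append_le L h1.1
      (finite_WS L M m (n - q.1 - 2 * q.2) (T - 2 * q.2)) (S q) (by
        rintro w ⟨g, hg, b, hb, w', hw', rfl⟩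
        exact ⟨g ++ b, ⟨g, hg, b, hb, rfl⟩, w', hw', rfl⟩)
    exact ⟨h2.1, h2.2.trans (Nat.mul_le_mul_right _ h1.2)⟩
  have hsub : WS L M m n T ⊆ ⋃ q ∈ Q, S q := by
    rintro w ⟨hwL, hlen, hdec⟩
    cases hdec with
    | base h => omega
    | step g b w' r _ hr hb h =>
      have hbl := hM r b hb
      rw [List.length_append, List.length_append, hbl] at hlen
      simp only [Set.mem_iUnion]
      refine ⟨(g.length, r), ?_, g, ⟨?_, rfl⟩, b, ⟨hb, ?_⟩, w', ⟨?_, ?_, h⟩, rfl⟩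
      · rw [hQ, Finset.mem_filter, Finset.mem_product, Finset.mem_range, Finset.mem_Ico]
        refine ⟨⟨?_, ?_⟩, ?_⟩ <;> simp only <;> omega
      · exact hL [] g (b ++ w') (by simpa using hwL)
      · exact hL g b w' hwL
      · exact hL (g ++ b) w' [] (by simpa using hwL)
      · simp only; omega
  have hUf : (⋃ q ∈ Q, S q).Finite := Q.finite_toSet.biUnion fun q _ => (hS q).1
  refine (Set.ncard_le_ncard hsub hUf).trans ?_
  have : ∀ (Q : Finset (ℕ × ℕ)), (⋃ q ∈ Q, S q).ncard ≤ ∑ q ∈ Q, (S q).ncard := by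
    intro Q
    induction Q using Finset.induction_on with
    | empty => simp
    | insert a Q ha ih =>
      rw [Finset.set_biUnion_insert, Finset.sum_insert ha]
      exact (Set.ncard_union_le _ _).trans (Nat.add_le_add_left ih _)
  refine (this Q).trans (Finset.sum_le_sum fun q _ => (hS q).2)

lemma geom_bound {x : ℝ} (hx0 : 0 ≤ x) (hx1 : x < 1) (n : ℕ) :
    ∑ a ∈ range n, x ^ a ≤ (1 - x)⁻¹ := by
  rw [← tsum_geometric_of_lt_one hx0 hx1]
  exact (summable_geometric_of_lt_one hx0 hx1).sum_le_tsum _ (fun i _ => pow_nonneg hx0 i)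

lemma geom_bound_Ico {x : ℝ} (hx0 : 0 ≤ x) (hx1 : x < 1) (m n : ℕ) :
    ∑ a ∈ Finset.Ico m n, x ^ a ≤ x ^ m * (1 - x)⁻¹ := by
  rw [Finset.sum_Ico_eq_sum_range]
  have : ∀ k, x ^ (m + k) = x ^ m * x ^ k := fun k => pow_add _ _ _
  simp_rw [this]
  rw [← Finset.mul_sum]
  exact mul_le_mul_of_nonneg_left (geom_bound hx0 hx1 _) (pow_nonneg hx0 m)

/-- exponential bound for words with many marked blocks -/
lemma WS_bound {L : Set (List Bool)} (hL : Factorial L) {M : ℕ → Set (List Bool)}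
    (hM : ∀ r, ∀ b ∈ M r, b.length = 2 * r) {h ε A C : ℝ} (hh : 0 ≤ h) (hε : 0 < ε) (hA : 0 < A)
    (hC : 0 ≤ C) (hN : ∀ n, (NN L n : ℝ) ≤ A * Real.exp ((h + ε) * n)) {m : ℕ} (hm1 : 1 ≤ m)
    (hMc : ∀ r, m ≤ r → ((M r ∩ L).ncard : ℝ) ≤ C * NN L r)
    (hm : C * A ^ 2 * ((1 - Real.exp (-ε))⁻¹ *
      (Real.exp (-(3 * ε)) ^ m * (1 - Real.exp (-(3 * ε)))⁻¹)) ≤ 1) (n : ℕ) :
    ∀ T : ℤ, ((WS L M m n T).ncard : ℝ) ≤ A * Real.exp ((h + 2 * ε) * n - h / 2 * T) := by
  induction n using Nat.strong_induction_on with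
  | _ n ih =>
    intro T
    rcases le_or_gt T 0 with hT | hT
    · have h1 : (WS L M m n T).ncard ≤ NN L n :=
        Set.ncard_le_ncard (fun w hw => ⟨hw.1, hw.2.1⟩) (finite_Ln L n)
      have h2 : ((WS L M m n T).ncard : ℝ) ≤ NN L n := by exact_mod_cast h1
      refine h2.trans ((hN n).trans ?_)
      apply mul_le_mul_of_nonneg_left _ hA.le
      apply Real.exp_le_exp.2
      have h3 : (T : ℝ) ≤ 0 := by exact_mod_cast hT
      have h4 : 0 ≤ ε * n := by positivity
      nlinarith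
    · have h1 := WS_rec hL hM m n hT
      have h2 : ((WS L M m n T).ncard : ℝ) ≤ ∑ q ∈ (range (n + 1) ×ˢ Finset.Ico m (n + 1)).filter
          (fun q => q.1 + 2 * q.2 ≤ n),
          (NN L q.1 : ℝ) * (M q.2 ∩ L).ncard *
            (WS L M m (n - q.1 - 2 * q.2) (T - 2 * q.2)).ncard := by
        exact_mod_cast h1
      refine h2.trans ?_
      set x := Real.exp (-ε) with hx
      set y := Real.exp (-(3 * ε)) with hy
      set K := A * Real.exp ((h + 2 * ε) * n - h / 2 * T) with hK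
      have hKpos : 0 < K := by positivity
      have hterm : ∀ q ∈ (range (n + 1) ×ˢ Finset.Ico m (n + 1)).filter
          (fun q => q.1 + 2 * q.2 ≤ n),
          (NN L q.1 : ℝ) * (M q.2 ∩ L).ncard *
            (WS L M m (n - q.1 - 2 * q.2) (T - 2 * q.2)).ncard ≤
          K * (C * A ^ 2) * (x ^ q.1 * y ^ q.2) := by
        rintro ⟨a, r⟩ hq
        rw [Finset.mem_filter, Finset.mem_product, Finset.mem_range, Finset.mem_Ico] at hq
        obtain ⟨⟨ha, hmr, hr⟩, har⟩ := hq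
        simp only at ha hmr hr har ⊢
        have i1 := hN a
        have i2 : ((M r ∩ L).ncard : ℝ) ≤ C * (A * Real.exp ((h + ε) * r)) :=
          (hMc r hmr).trans (mul_le_mul_of_nonneg_left (hN r) hC)
        have i3 := ih (n - a - 2 * r) (by omega) (T - 2 * r)
        have e1 : ((n - a - 2 * r : ℕ) : ℝ) = n - a - 2 * r := by
          rw [Nat.cast_sub (by omega), Nat.cast_sub (by omega)]
          push_cast; ring
        rw [e1] at i3
        push_cast at i3
        have i4 : (NN L a : ℝ) * (M r ∩ L).ncard *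
            (WS L M m (n - a - 2 * r) (T - 2 * r)).ncard ≤
            (A * Real.exp ((h + ε) * a)) * (C * (A * Real.exp ((h + ε) * r))) *
              (A * Real.exp ((h + 2 * ε) * (n - a - 2 * r) - h / 2 * (T - 2 * r))) := by
          gcongr
        refine i4.trans (le_of_eq ?_)
        rw [hK, hx, hy, ← Real.exp_nat_mul, ← Real.exp_nat_mul]
        have e2 : Real.exp ((h + ε) * a) * Real.exp ((h + ε) * r) *
            Real.exp ((h + 2 * ε) * (n - a - 2 * r) - h / 2 * (T - 2 * r)) =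
            Real.exp ((h + 2 * ε) * n - h / 2 * T) * (Real.exp (a * -ε) * Real.exp (r * -(3 * ε))) := by
          rw [← Real.exp_add, ← Real.exp_add, ← Real.exp_add, ← Real.exp_add]
          congr 1
          ring
        linear_combination (C * A ^ 3) * e2
      refine (Finset.sum_le_sum hterm).trans ?_
      have hx0 : 0 ≤ x := (Real.exp_pos _).le
      have hy0 : 0 ≤ y := (Real.exp_pos _).le
      have hx1 : x < 1 := by rw [hx, Real.exp_lt_one_iff]; linarith
      have hy1 : y < 1 := by rw [hy, Real.exp_lt_one_iff]; linarith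
      have h3 : ∑ q ∈ (range (n + 1) ×ˢ Finset.Ico m (n + 1)).filter
          (fun q => q.1 + 2 * q.2 ≤ n), K * (C * A ^ 2) * (x ^ q.1 * y ^ q.2) ≤
          ∑ q ∈ range (n + 1) ×ˢ Finset.Ico m (n + 1), K * (C * A ^ 2) * (x ^ q.1 * y ^ q.2) := by
        refine Finset.sum_le_sum_of_subset_of_nonneg (Finset.filter_subset _ _) (fun q _ _ => ?_)
        positivity
      refine h3.trans ?_
      rw [← Finset.mul_sum, Finset.sum_product]
      have h4 : ∑ a ∈ range (n + 1), ∑ r ∈ Finset.Ico m (n + 1), x ^ a * y ^ r ≤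
          (1 - x)⁻¹ * (y ^ m * (1 - y)⁻¹) := by
        have : ∑ a ∈ range (n + 1), ∑ r ∈ Finset.Ico m (n + 1), x ^ a * y ^ r =
            (∑ a ∈ range (n + 1), x ^ a) * ∑ r ∈ Finset.Ico m (n + 1), y ^ r := by
          rw [Finset.sum_mul_sum]
        rw [this]
        have p1 : 0 ≤ (1 - x)⁻¹ := inv_nonneg.2 (by linarith)
        exact mul_le_mul (geom_bound hx0 hx1 _) (geom_bound_Ico hy0 hy1 _ _)
          (Finset.sum_nonneg fun _ _ => pow_nonneg hy0 _) p1
      have h5 : K * (C * A ^ 2) * ∑ a ∈ range (n + 1), ∑ r ∈ Finset.Ico m (n + 1), x ^ a * y ^ r ≤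
          K * (C * A ^ 2) * ((1 - x)⁻¹ * (y ^ m * (1 - y)⁻¹)) :=
        mul_le_mul_of_nonneg_left h4 (by positivity)
      refine h5.trans ?_
      calc K * (C * A ^ 2) * ((1 - x)⁻¹ * (y ^ m * (1 - y)⁻¹))
          = K * (C * A ^ 2 * ((1 - x)⁻¹ * (y ^ m * (1 - y)⁻¹))) := by ring
        _ ≤ K * 1 := mul_le_mul_of_nonneg_left hm hKpos.le
        _ = K := mul_one K

end Pool.Agent.Helper47.Baker
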