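import Mathlib

set_option autoImplicit false

namespace Pool.Agent.Helper47.Baker

open Set

/-- the unit square -/
def Sq : Set (ℝ × ℝ) := Icc 0 1 ×ˢ Icc 0 1

/-- the baker's map -/
noncomputable def baker (p : ℝ × ℝ) : ℝ × ℝ :=
  if p.1 < 1 / 2 then (2 * p.1, p.2 / 2) else (2 * p.1 - 1, (p.2 + 1) / 2)

/-- the value of a binary digit -/
def dig (b : Bool) : ℝ := if b then 1 else 0

/-- the point coded by a two-sided sequence of binary digits -/
noncomputable def code (u : ℤ → Bool) : ℝ × ℝ :=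
  (∑' n : ℕ, dig (u (n + 1)) / 2 ^ (n + 1), ∑' n : ℕ, dig (u (-n)) / 2 ^ (n + 1))

/-- the set of points that lie on a full orbit of the baker's map avoiding `H` -/
def survivor (H : Set (ℝ × ℝ)) : Set (ℝ × ℝ) :=
  {p | ∃ o : ℤ → ℝ × ℝ, o 0 = p ∧ ∀ n, o n ∈ Sq ∧ baker (o n) = o (n + 1) ∧ o n ∉ H}

/-- the set of points coded by a sequence all of whose shifts code points outside `H` -/
def codedSurvivor (H : Set (ℝ × ℝ)) : Set (ℝ × ℝ) :=
  {p | ∃ u : ℤ → Bool, p = code u ∧ ∀ n : ℤ, code (fun k => u (k + n)) ∉ H}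

end Pool.Agent.Helper47.Baker
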