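import Mathlib
import Pool.Agent.Helper47.Baker.Defs

set_option autoImplicit false

namespace Pool.Agent.Helper47.Baker

open Set

lemma dig_nonneg (b : Bool) : 0 ≤ dig b := by cases b <;> simp [dig]
lemma dig_le_one (b : Bool) : dig b ≤ 1 := by cases b <;> simp [dig]

/-- value of a one sided sequence -/
noncomputable def VS (s : ℕ → Bool) : ℝ := ∑' n : ℕ, dig (s n) / 2 ^ (n + 1)

lemma geo_summable : Summable (fun n : ℕ => (1 : ℝ) / 2 ^ (n + 1)) := by
  have := (summable_geometric_two).mul_left (1 / 2 : ℝ)
  refine this.congr (fun n => ?_)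
  rw [pow_succ, one_div_pow]; ring

lemma geo_sum : ∑' n : ℕ, (1 : ℝ) / 2 ^ (n + 1) = 1 := by
  have h : (fun n : ℕ => (1 : ℝ) / 2 ^ (n + 1)) = fun n : ℕ => (1 / 2 : ℝ) * (1 / 2) ^ n := by
    funext n
    rw [pow_succ, one_div_pow]; ring
  rw [h, tsum_mul_left, tsum_geometric_two]; norm_num

lemma VS_summable (s : ℕ → Bool) : Summable (fun n : ℕ => dig (s n) / 2 ^ (n + 1)) := by
  refine Summable.of_nonneg_of_le (fun n => div_nonneg (dig_nonneg _) (by positivity)) (fun n => ?_)
    geo_summable
  exact div_le_div_of_nonneg_right (dig_le_one _) (by positivity)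

lemma VS_nonneg (s : ℕ → Bool) : 0 ≤ VS s :=
  tsum_nonneg fun n => div_nonneg (dig_nonneg _) (by positivity)

lemma VS_le_one (s : ℕ → Bool) : VS s ≤ 1 := by
  rw [← geo_sum]
  exact (VS_summable s).tsum_le_tsum
    (fun n => div_le_div_of_nonneg_right (dig_le_one _) (by positivity)) geo_summable

lemma VS_cons (s : ℕ → Bool) : VS s = (dig (s 0) + VS (fun n => s (n + 1))) / 2 := by
  rw [VS, (VS_summable s).tsum_eq_zero_add]
  have : ∑' n : ℕ, dig (s (n + 1)) / 2 ^ (n + 1 + 1) = VS (fun n => s (n + 1)) / 2 := by
    rw [VS, ← tsum_div_const]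
    refine tsum_congr fun n => ?_
    rw [pow_succ (2 : ℝ) (n + 1)]; field_simp
  rw [this]; simp; ring

/-- value of a finite word -/
noncomputable def val : List Bool → ℝ
  | [] => 0
  | b :: l => (dig b + val l) / 2

/-- natural number value of a finite word -/
def nv : List Bool → ℕ
  | [] => 0
  | b :: l => (if b then 2 ^ l.length else 0) + nv l

lemma val_eq (l : List Bool) : val l = nv l / 2 ^ l.length := by
  induction l with
  | nil => simp [val, nv]
  | cons b l ih =>
    rw [val, nv, ih, List.length_cons, pow_succ]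
    cases b <;> simp [dig] <;> field_simp

lemma nv_lt (l : List Bool) : nv l < 2 ^ l.length := by
  induction l with
  | nil => simp [nv]
  | cons b l ih =>
    rw [nv, List.length_cons, pow_succ]
    cases b <;> simp <;> omega

lemma nv_inj : ∀ l l' : List Bool, l.length = l'.length → nv l = nv l' → l = l' := by
  intro l
  induction l with
  | nil =>
    intro l' h _
    exact (List.length_eq_zero_iff.1 h.symm).symm
  | cons b l ih =>
    intro l' h h'
    cases l' with
    | nil => simp at h
    | cons b' l' =>
      have hlen : l.length = l'.length := by simpa using h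
      have h1 := nv_lt l
      have h2 := nv_lt l'
      rw [nv, nv, hlen] at h'
      rw [hlen] at h1
      have : b = b' ∧ nv l = nv l' := by
        cases b <;> cases b' <;> simp at h' ⊢ <;> omega
      rw [this.1, ih l' hlen this.2]

lemma val_nonneg (l : List Bool) : 0 ≤ val l := by rw [val_eq]; positivity

lemma val_add_le (l : List Bool) : val l + 1 / 2 ^ l.length ≤ 1 := by
  rw [val_eq, ← add_div, div_le_one (by positivity)]
  have := nv_lt l
  exact_mod_cast this

/-- the word of length `n` of `u` starting at `a` -/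
def word (u : ℤ → Bool) : ℤ → ℕ → List Bool
  | _, 0 => []
  | a, n + 1 => u a :: word u (a + 1) n

lemma word_length (u : ℤ → Bool) (a : ℤ) (n : ℕ) : (word u a n).length = n := by
  induction n generalizing a with
  | zero => rfl
  | succ n ih => rw [word, List.length_cons, ih]

lemma word_add (u : ℤ → Bool) (a : ℤ) (m n : ℕ) :
    word u a (m + n) = word u a m ++ word u (a + m) n := by
  induction m generalizing a with
  | zero => simp [word]
  | succ m ih =>
    have : m + 1 + n = (m + n) + 1 := by ring
    rw [this, word, word, List.cons_append, ih]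
    congr 3
    push_cast; ring

lemma word_take (u : ℤ → Bool) (a : ℤ) {k n : ℕ} (h : k ≤ n) :
    (word u a n).take k = word u a k := by
  obtain ⟨m, rfl⟩ := Nat.exists_eq_add_of_le h
  rw [word_add]
  have := word_length u a k
  rw [List.take_append_of_le_length (by rw [this]), List.take_of_length_le (by rw [this])]

lemma word_drop (u : ℤ → Bool) (a : ℤ) {k n : ℕ} (h : k ≤ n) :
    (word u a n).drop k = word u (a + k) (n - k) := by
  obtain ⟨m, rfl⟩ := Nat.exists_eq_add_of_le h
  rw [word_add, Nat.add_sub_cancel_left]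
  have h1 := word_length u a k
  have := List.drop_left (l₁ := word u a k) (l₂ := word u (a + k) m)
  rwa [h1] at this

lemma word_congr {u v : ℤ → Bool} {a : ℤ} {n : ℕ} (h : ∀ k, a ≤ k → k < a + n → u k = v k) :
    word u a n = word v a n := by
  induction n generalizing a with
  | zero => rfl
  | succ n ih =>
    rw [word, word, h a le_rfl (by push_cast; omega), ih (fun k hk1 hk2 => h k (by omega) (by push_cast; omega))]

lemma word_eq_imp {u v : ℤ → Bool} {a b : ℤ} {n : ℕ} (h : word u a n = word v b n) :
    ∀ i : ℤ, 0 ≤ i → i < n → u (a + i) = v (b + i) := by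
  induction n generalizing a b with
  | zero => intro i h1 h2; simp at h2; omega
  | succ n ih =>
    intro i h1 h2
    rw [word, word, List.cons.injEq] at h
    rcases eq_or_lt_of_le h1 with rfl | h3
    · simpa using h.1
    · have := ih h.2 (i - 1) (by omega) (by push_cast at h2; omega)
      have e1 : a + 1 + (i - 1) = a + i := by ring
      have e2 : b + 1 + (i - 1) = b + i := by ring
      rwa [e1, e2] at this

lemma word_snoc (u : ℤ → Bool) (a : ℤ) (n : ℕ) : word u a (n + 1) = word u a n ++ [u (a + n)] := by
  rw [word_add]; simp [word]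

/-- value of a one sided sequence through its first letters -/
lemma VS_word (u : ℤ → Bool) (a : ℤ) (r : ℕ) :
    VS (fun n => u (a + n)) = val (word u a r) + VS (fun n => u (a + r + n)) / 2 ^ r := by
  induction r generalizing a with
  | zero => simp [word, val]
  | succ r ih =>
    rw [VS_cons, word, val]
    have e1 : (fun n : ℕ => u (a + ((n + 1 : ℕ) : ℤ))) = fun n : ℕ => u (a + 1 + n) := by
      funext n; congr 1; push_cast; ring
    have e2 : (fun n : ℕ => u (a + ((r + 1 : ℕ) : ℤ) + n)) = fun n : ℕ => u (a + 1 + r + n) := by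
      funext n; congr 1; push_cast; ring
    rw [e1, e2, ih (a + 1), pow_succ]
    simp
    ring

lemma VS_word_rev (u : ℤ → Bool) (a : ℤ) (r : ℕ) :
    VS (fun n => u (a - 1 - n)) = val (word u (a - r) r).reverse + VS (fun n => u (a - r - 1 - n)) / 2 ^ r := by
  induction r generalizing a with
  | zero => simp [word, val]
  | succ r ih =>
    rw [VS_cons]
    have e0 : word u (a - ((r + 1 : ℕ) : ℤ)) (r + 1) = word u (a - 1 - r) r ++ [u (a - 1)] := by
      rw [word_snoc]
      congr 2
      · push_cast; ring
      · push_cast; congr 1; ring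
    have e1 : (fun n : ℕ => u (a - 1 - ((n + 1 : ℕ) : ℤ))) = fun n : ℕ => u (a - 1 - 1 - n) := by
      funext n; congr 1; push_cast; ring
    have e2 : (fun n : ℕ => u (a - ((r + 1 : ℕ) : ℤ) - 1 - n)) = fun n : ℕ => u (a - 1 - r - 1 - n) := by
      funext n; congr 1; push_cast; ring
    rw [e0, List.reverse_append, List.reverse_singleton, List.singleton_append, val, e1, e2,
      ih (a - 1), pow_succ]
    simp
    ring

/-- the point at a cut -/
noncomputable def PP (u : ℤ → Bool) (k : ℤ) : ℝ × ℝ :=
  (VS (fun n => u (k + n)), VS (fun n => u (k - 1 - n)))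

lemma code_shift (u : ℤ → Bool) (k : ℤ) : code (fun j => u (j + (k - 1))) = PP u k := by
  unfold code PP VS
  congr 1
  · refine tsum_congr fun n => ?_
    congr 3; ring_nf
  · refine tsum_congr fun n => ?_
    congr 3; ring_nf

lemma PP_mem (u : ℤ → Bool) (k : ℤ) : PP u k ∈ Sq :=
  ⟨⟨VS_nonneg _, VS_le_one _⟩, ⟨VS_nonneg _, VS_le_one _⟩⟩

/-- the dyadic square of a block -/
def InSq (r : ℕ) (b : List Bool) (p : ℝ × ℝ) : Prop :=
  (val (b.drop r) ≤ p.1 ∧ p.1 ≤ val (b.drop r) + 1 / 2 ^ r) ∧
  (val (b.take r).reverse ≤ p.2 ∧ p.2 ≤ val (b.take r).reverse + 1 / 2 ^ r)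

lemma inSq_word (u : ℤ → Bool) (k : ℤ) (r : ℕ) : InSq r (word u (k - r) (2 * r)) (PP u k) := by
  have e1 : (word u (k - r) (2 * r)).drop r = word u k r := by
    rw [word_drop _ _ (by omega)]
    congr 1
    · ring
    · omega
  have e2 : (word u (k - r) (2 * r)).take r = word u (k - r) r := word_take _ _ (by omega)
  unfold InSq
  rw [e1, e2]
  have hp : (0 : ℝ) < 2 ^ r := by positivity
  refine ⟨⟨?_, ?_⟩, ⟨?_, ?_⟩⟩
  · show val (word u k r) ≤ VS _
    rw [VS_word u k r]
    have := div_nonneg (VS_nonneg fun n => u (k + r + n)) hp.le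
    linarith
  · show VS _ ≤ _
    rw [VS_word u k r]
    have := div_le_div_of_nonneg_right (VS_le_one fun n => u (k + r + n)) hp.le
    linarith
  · show _ ≤ VS _
    rw [VS_word_rev u k r]
    have := div_nonneg (VS_nonneg fun n => u (k - r - 1 - n)) hp.le
    linarith
  · show VS _ ≤ _
    rw [VS_word_rev u k r]
    have := div_le_div_of_nonneg_right (VS_le_one fun n => u (k - r - 1 - n)) hp.le
    linarith

end Pool.Agent.Helper47.Baker
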