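import Mathlib
import Pool.Agent.Helper47.Baker.Words
import Pool.Agent.Helper47.Baker.Growth

set_option autoImplicit false

namespace Pool.Agent.Helper47.Baker

open Set

/-- four kinds of boundary points -/
def Ty (H : Set (ℝ × ℝ)) (τ : Fin 4) (p : ℝ × ℝ) : Prop :=
  match τ with
  | 0 => ∀ q ∈ closure H, q.2 - p.2 ≤ |q.1 - p.1|
  | 1 => ∀ q ∈ closure H, p.2 - q.2 ≤ |q.1 - p.1|
  | 2 => ∀ q ∈ closure H, q.1 - p.1 ≤ |q.2 - p.2|
  | 3 => ∀ q ∈ closure H, p.1 - q.1 ≤ |q.2 - p.2|

lemma ty_pair {H : Set (ℝ × ℝ)} {τ : Fin 4} {p q : ℝ × ℝ} (hp : p ∈ closure H) (hq : q ∈ closure H)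
    (h1 : Ty H τ p) (h2 : Ty H τ q) :
    (τ.val < 2 → |p.2 - q.2| ≤ |p.1 - q.1|) ∧ (2 ≤ τ.val → |p.1 - q.1| ≤ |p.2 - q.2|) := by
  have e1 := abs_sub_comm p.1 q.1
  have e2 := abs_sub_comm p.2 q.2
  fin_cases τ
  · refine ⟨fun _ => ?_, fun h => by simp at h⟩
    have a1 := h1 q hq
    have a2 := h2 p hp
    rw [abs_le]
    constructor <;> linarith
  · refine ⟨fun _ => ?_, fun h => by simp at h⟩
    have a1 := h1 q hq
    have a2 := h2 p hp
    rw [abs_le]
    constructor <;> linarith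
  · refine ⟨fun h => by simp at h, fun _ => ?_⟩
    have a1 := h1 q hq
    have a2 := h2 p hp
    rw [abs_le]
    constructor <;> linarith
  · refine ⟨fun h => by simp at h, fun _ => ?_⟩
    have a1 := h1 q hq
    have a2 := h2 p hp
    rw [abs_le]
    constructor <;> linarith

/-- relatively open subsets of the square -/
def RelOpen (H : Set (ℝ × ℝ)) : Prop := ∃ O, IsOpen O ∧ H = O ∩ Sq

lemma convex_Sq : Convex ℝ Sq := (convex_Icc 0 1).prod (convex_Icc 0 1)

lemma isClosed_Sq : IsClosed Sq := isClosed_Icc.prod isClosed_Icc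

lemma closure_sub {H : Set (ℝ × ℝ)} (hH : RelOpen H) : closure H ⊆ Sq := by
  obtain ⟨O, _, rfl⟩ := hH
  exact closure_minimal inter_subset_right isClosed_Sq

/-- the interior of a relatively open set is dense in it -/
lemma closure_int {H : Set (ℝ × ℝ)} (hH : RelOpen H) : H ⊆ closure (interior H) := by
  obtain ⟨O, hO, rfl⟩ := hH
  intro p hp
  have hint : interior Sq = Ioo 0 1 ×ˢ Ioo 0 1 := by
    rw [Sq, interior_prod_eq, interior_Icc]
  have hcl : closure (Ioo (0 : ℝ) 1 ×ˢ Ioo (0 : ℝ) 1) = Sq := by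
    rw [closure_prod_eq, closure_Ioo (zero_ne_one), Sq]
  have hp2 : p ∈ closure (Ioo (0 : ℝ) 1 ×ˢ Ioo (0 : ℝ) 1) := by rw [hcl]; exact hp.2
  rw [mem_closure_iff] at hp2 ⊢
  intro U hU hpU
  obtain ⟨q, hq1, hq2⟩ := hp2 (U ∩ O) (hU.inter hO) ⟨hpU, hp.1⟩
  refine ⟨q, hq1.1, ?_⟩
  rw [interior_inter, hO.interior_eq, hint]
  exact ⟨hq1.2, hq2⟩

/-- every boundary point has one of the four types -/
lemma exists_ty {H : Set (ℝ × ℝ)} (hH : RelOpen H) (hc : Convex ℝ H) {p : ℝ × ℝ}
    (hp : p ∈ closure H \ H) : ∃ τ, Ty H τ p := by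
  have hpi : p ∉ interior H := fun h => hp.2 (interior_subset h)
  obtain ⟨f, hf⟩ := geometric_hahn_banach_open_point hc.interior isOpen_interior hpi
  have hle : ∀ q ∈ closure H, f q ≤ f p := by
    have h1 : closure H ⊆ closure (interior H) := by
      have := closure_mono (closure_int hH)
      rwa [closure_closure] at this
    intro q hq
    have h2 : closure (interior H) ⊆ {q | f q ≤ f p} :=
      closure_minimal (fun q hq => (hf q hq).le) (isClosed_le f.continuous continuous_const)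
    exact h2 (h1 hq)
  set a := f (1, 0) with ha
  set b := f (0, 1) with hb
  have hfe : ∀ q : ℝ × ℝ, f q = q.1 * a + q.2 * b := by
    intro q
    have : q = q.1 • ((1, 0) : ℝ × ℝ) + q.2 • ((0, 1) : ℝ × ℝ) := by
      ext <;> simp
    conv_lhs => rw [this]
    rw [map_add, map_smul, map_smul, smul_eq_mul, smul_eq_mul]
  have hle' : ∀ q ∈ closure H, (q.1 - p.1) * a + (q.2 - p.2) * b ≤ 0 := by
    intro q hq
    have := hle q hq
    rw [hfe, hfe] at this
    linarith
  have hne : ¬ (a = 0 ∧ b = 0) := by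
    rintro ⟨h1, h2⟩
    have hHne : (interior H).Nonempty := by
      rw [← closure_nonempty_iff]
      have h3 : H.Nonempty := closure_nonempty_iff.1 ⟨p, hp.1⟩
      exact h3.mono (closure_int hH)
    obtain ⟨q, hq⟩ := hHne
    have := hf q hq
    rw [hfe, hfe, h1, h2] at this
    simp at this
  -- case analysis
  have habs : ∀ x y : ℝ, -(x * y) ≤ |x| * |y| := fun x y => by
    rw [← abs_mul]; exact neg_le_abs _
  rcases le_total |a| |b| with hab | hab
  · have hb0 : b ≠ 0 := by
      intro h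
      rw [h, abs_zero] at hab
      exact hne ⟨abs_eq_zero.1 (le_antisymm hab (abs_nonneg _)), h⟩
    rcases lt_or_gt_of_ne hb0 with hb' | hb'
    · refine ⟨1, fun q hq => ?_⟩
      have h1 := hle' q hq
      rw [abs_of_neg hb'] at hab
      have h2 := habs (q.1 - p.1) a
      have h3 : |q.1 - p.1| * |a| ≤ |q.1 - p.1| * -b := mul_le_mul_of_nonneg_left hab (abs_nonneg _)
      have h4 : (p.2 - q.2) * -b ≤ |q.1 - p.1| * -b := by linarith
      exact le_of_mul_le_mul_right h4 (by linarith)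
    · refine ⟨0, fun q hq => ?_⟩
      have h1 := hle' q hq
      rw [abs_of_pos hb'] at hab
      have h2 := habs (q.1 - p.1) a
      have h3 : |q.1 - p.1| * |a| ≤ |q.1 - p.1| * b := mul_le_mul_of_nonneg_left hab (abs_nonneg _)
      have h4 : (q.2 - p.2) * b ≤ |q.1 - p.1| * b := by linarith
      exact le_of_mul_le_mul_right h4 hb'
  · have ha0 : a ≠ 0 := by
      intro h
      rw [h, abs_zero] at hab
      exact hne ⟨h, abs_eq_zero.1 (le_antisymm hab (abs_nonneg _))⟩
    rcases lt_or_gt_of_ne ha0 with ha' | ha'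
    · refine ⟨3, fun q hq => ?_⟩
      have h1 := hle' q hq
      rw [abs_of_neg ha'] at hab
      have h2 := habs (q.2 - p.2) b
      have h3 : |q.2 - p.2| * |b| ≤ |q.2 - p.2| * -a := mul_le_mul_of_nonneg_left hab (abs_nonneg _)
      have h4 : (p.1 - q.1) * -a ≤ |q.2 - p.2| * -a := by linarith
      exact le_of_mul_le_mul_right h4 (by linarith)
    · refine ⟨2, fun q hq => ?_⟩
      have h1 := hle' q hq
      rw [abs_of_pos ha'] at hab
      have h2 := habs (q.2 - p.2) b
      have h3 : |q.2 - p.2| * |b| ≤ |q.2 - p.2| * a := mul_le_mul_of_nonneg_left hab (abs_nonneg _)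
      have h4 : (q.1 - p.1) * a ≤ |q.2 - p.2| * a := by linarith
      exact le_of_mul_le_mul_right h4 ha'

/-- a dyadic square meeting the closure but not contained in `H` contains a boundary point -/
lemma exists_boundary {H : Set (ℝ × ℝ)} (hH : RelOpen H) {r : ℕ} {b : List Bool}
    (hb : b.length = 2 * r) {p q : ℝ × ℝ} (hp : InSq r b p) (hpH : p ∈ closure H)
    (hq : InSq r b q) (hqH : q ∉ H) : ∃ p' ∈ closure H \ H, InSq r b p' := by
  by_contra hcon
  push Not at hcon
  set S : Set (ℝ × ℝ) := {p | InSq r b p} with hS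
  have hl1 : (b.drop r).length = r := by rw [List.length_drop]; omega
  have hl2 : (b.take r).reverse.length = r := by rw [List.length_reverse, List.length_take]; omega
  have hS' : S = Icc (val (b.drop r)) (val (b.drop r) + 1 / 2 ^ r) ×ˢ
      Icc (val (b.take r).reverse) (val (b.take r).reverse + 1 / 2 ^ r) := by
    ext p; rfl
  have hpre : IsPreconnected S := by
    rw [hS']
    exact ((convex_Icc _ _).prod (convex_Icc _ _)).isPreconnected
  have hsub : S ⊆ Sq := by
    rintro p ⟨⟨h1, h2⟩, h3, h4⟩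
    have e1 := val_nonneg (b.drop r)
    have e2 := val_nonneg (b.take r).reverse
    have e3 := val_add_le (b.drop r)
    have e4 := val_add_le (b.take r).reverse
    rw [hl1] at e3
    rw [hl2] at e4
    exact ⟨⟨by linarith, by linarith⟩, by linarith, by linarith⟩
  obtain ⟨O, hO, hHO⟩ := hH
  have hcl : ∀ x ∈ S, x ∈ closure H → x ∈ H := by
    intro x hx hxc
    by_contra hxH
    exact hcon x ⟨hxc, hxH⟩ hx
  have h1 : (S ∩ (O ∩ (closure H)ᶜ)).Nonempty := by
    refine hpre O (closure H)ᶜ hO isClosed_closure.isOpen_compl ?_ ?_ ?_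
    · intro x hx
      by_cases hxc : x ∈ closure H
      · left
        have := hcl x hx hxc
        rw [hHO] at this
        exact this.1
      · right; exact hxc
    · refine ⟨p, hp, ?_⟩
      have := hcl p hp hpH
      rw [hHO] at this
      exact this.1
    · refine ⟨q, hq, fun hqc => hqH (hcl q hq hqc)⟩
  obtain ⟨x, hx, hxO, hxc⟩ := h1
  apply hxc
  apply subset_closure
  rw [hHO]
  exact ⟨hxO, hsub hx⟩

/-- marked blocks -/
def MK (H : Set (ℝ × ℝ)) (r : ℕ) : Set (List Bool) :=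
  {b | b.length = 2 * r ∧ ((∃ p ∈ closure H \ H, InSq r b p) ∨
    b = List.replicate (2 * r) true ∨ b = List.replicate (2 * r) false)}

lemma card_le_three (S : Finset ℕ) (h : ∀ x ∈ S, ∀ y ∈ S, x ≤ y + 2) : S.card ≤ 3 := by
  by_cases hne : S.Nonempty
  · have h1 : S ⊆ Finset.Icc (S.min' hne) (S.min' hne + 2) := by
      intro x hx
      rw [Finset.mem_Icc]
      exact ⟨S.min'_le x hx, h x hx _ (S.min'_mem hne)⟩
    refine (Finset.card_le_card h1).trans ?_
    rw [Nat.card_Icc]; omega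
  · rw [Finset.not_nonempty_iff_eq_empty] at hne
    rw [hne]; simp

/-- blocks with a boundary point of a given type -/
def MT (H : Set (ℝ × ℝ)) (τ : Fin 4) (r : ℕ) : Set (List Bool) :=
  {b | b.length = 2 * r ∧ ∃ p ∈ closure H \ H, Ty H τ p ∧ InSq r b p}

lemma fibre_count {r : ℕ} {S : Finset (List Bool)} {T : Set (List Bool)} (hT : T.Finite)
    (f g : List Bool → List Bool) (hfT : ∀ b ∈ S, f b ∈ T)
    (hinj : ∀ b ∈ S, ∀ b' ∈ S, f b = f b' → g b = g b' → b = b')
    (hlen : ∀ b ∈ S, (g b).length = r)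
    (hclose : ∀ b ∈ S, ∀ b' ∈ S, f b = f b' → nv (g b) ≤ nv (g b') + 2) :
    S.card ≤ 3 * T.ncard := by
  classical
  have h1 : S.card ≤ 3 * (S.image f).card := by
    apply Finset.card_le_mul_card_image
    intro a _
    have h2 : ((S.filter (fun x => f x = a)).image (fun b => nv (g b))).card =
        (S.filter (fun x => f x = a)).card := by
      apply Finset.card_image_of_injOn
      intro b hb b' hb' hnv
      have hb1 := Finset.mem_filter.1 hb
      have hb2 := Finset.mem_filter.1 hb'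
      refine hinj b hb1.1 b' hb2.1 (hb1.2.trans hb2.2.symm) ?_
      exact nv_inj _ _ ((hlen b hb1.1).trans (hlen b' hb2.1).symm) hnv
    rw [← h2]
    apply card_le_three
    intro x hx y hy
    obtain ⟨b, hb, rfl⟩ := Finset.mem_image.1 hx
    obtain ⟨b', hb', rfl⟩ := Finset.mem_image.1 hy
    have hb1 := Finset.mem_filter.1 hb
    have hb2 := Finset.mem_filter.1 hb'
    exact hclose b hb1.1 b' hb2.1 (hb1.2.trans hb2.2.symm)
  refine h1.trans (Nat.mul_le_mul_left _ ?_)
  rw [← Set.ncard_coe_finset]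
  refine Set.ncard_le_ncard ?_ hT
  intro x hx
  obtain ⟨b, hb, rfl⟩ := Finset.mem_image.1 (Finset.mem_coe.1 hx)
  exact hfT b hb

lemma nv_close {r : ℕ} {l l' : List Bool} (hl : l.length = r) (hl' : l'.length = r) {x y : ℝ}
    (h1 : val l ≤ x) (h2 : y ≤ val l' + 1 / 2 ^ r) (h3 : |x - y| ≤ 1 / 2 ^ r) :
    nv l ≤ nv l' + 2 := by
  rw [val_eq, hl] at h1
  rw [val_eq, hl'] at h2
  have hp : (0 : ℝ) < 2 ^ r := by positivity
  rw [abs_le] at h3
  have h4 : (nv l : ℝ) / 2 ^ r ≤ (nv l' : ℝ) / 2 ^ r + 2 / 2 ^ r := by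
    have : (2 : ℝ) / 2 ^ r = 1 / 2 ^ r + 1 / 2 ^ r := by ring
    linarith
  rw [← add_div, div_le_div_iff_of_pos_right hp] at h4
  exact_mod_cast h4

lemma MT_count {H : Set (ℝ × ℝ)} {L : Set (List Bool)} (hL : Factorial L) (τ : Fin 4) (r : ℕ) :
    (MT H τ r ∩ L).ncard ≤ 3 * NN L r := by
  classical
  have hf : (MT H τ r ∩ L).Finite := (finite_len (2 * r)).subset fun b hb => hb.1.1
  rw [Set.ncard_eq_toFinset_card _ hf]
  have hmem : ∀ b ∈ hf.toFinset, b ∈ MT H τ r ∩ L := fun b hb => hf.mem_toFinset.1 hb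
  have hdrop : ∀ b ∈ hf.toFinset, (b.drop r).length = r := by
    intro b hb
    have := (hmem b hb).1.1
    rw [List.length_drop]; omega
  have htake : ∀ b ∈ hf.toFinset, (b.take r).reverse.length = r := by
    intro b hb
    have := (hmem b hb).1.1
    rw [List.length_reverse, List.length_take]; omega
  have hinj : ∀ b b' : List Bool, b.drop r = b'.drop r → (b.take r).reverse = (b'.take r).reverse →
      b = b' := by
    intro b b' h1 h2
    rw [← List.take_append_drop r b, ← List.take_append_drop r b', h1, List.reverse_injective h2]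
  rcases lt_or_ge τ.val 2 with hτ | hτ
  · refine fibre_count (r := r) (finite_Ln L r) (fun b => b.drop r) (fun b => (b.take r).reverse)
      ?_ ?_ htake ?_
    · intro b hb
      refine ⟨?_, hdrop b hb⟩
      apply hL (b.take r) (b.drop r) []
      simpa using (hmem b hb).2
    · intro b _ b' _ h1 h2
      exact hinj b b' h1 h2
    · intro b hb b' hb' hfe
      obtain ⟨_, p, hp, hty, hin⟩ := (hmem b hb).1
      obtain ⟨_, p', hp', hty', hin'⟩ := (hmem b' hb').1
      have h1 := (ty_pair hp.1 hp'.1 hty hty').1 hτ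
      refine nv_close (htake b hb) (htake b' hb') hin.2.1 hin'.2.2 (h1.trans ?_)
      have hfe' : b.drop r = b'.drop r := hfe
      have a1 := hin.1
      have a2 := hin'.1
      rw [hfe'] at a1
      rw [abs_le]
      constructor <;> linarith [a1.1, a1.2, a2.1, a2.2]
  · refine fibre_count (r := r) (finite_Ln L r) (fun b => b.take r) (fun b => b.drop r)
      ?_ ?_ hdrop ?_
    · intro b hb
      refine ⟨?_, ?_⟩
      · apply hL [] (b.take r) (b.drop r)
        simpa using (hmem b hb).2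
      · have := htake b hb
        rwa [List.length_reverse] at this
    · intro b _ b' _ h1 h2
      have h1' : b.take r = b'.take r := h1
      exact hinj b b' h2 (by rw [h1'])
    · intro b hb b' hb' hfe
      obtain ⟨_, p, hp, hty, hin⟩ := (hmem b hb).1
      obtain ⟨_, p', hp', hty', hin'⟩ := (hmem b' hb').1
      have h1 := (ty_pair hp.1 hp'.1 hty hty').2 hτ
      refine nv_close (hdrop b hb) (hdrop b' hb') hin.1.1 hin'.1.2 (h1.trans ?_)
      have hfe' : b.take r = b'.take r := hfe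
      have a1 := hin.2
      have a2 := hin'.2
      rw [hfe'] at a1
      rw [abs_le]
      constructor <;> linarith [a1.1, a1.2, a2.1, a2.2]

lemma MK_count {H : Set (ℝ × ℝ)} (hH : RelOpen H) (hc : Convex ℝ H) {L : Set (List Bool)}
    (hL : Factorial L) (hne : ∀ n, (Ln L n).Nonempty) (r : ℕ) :
    (MK H r ∩ L).ncard ≤ 14 * NN L r := by
  have hpos : 1 ≤ NN L r := (Set.ncard_pos (finite_Ln L r)).2 (hne r)
  have hf : ∀ τ, (MT H τ r ∩ L).Finite := fun τ => (finite_len (2 * r)).subset fun b hb => hb.1.1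
  have hsub : MK H r ∩ L ⊆ ((MT H 0 r ∩ L) ∪ (MT H 1 r ∩ L) ∪ (MT H 2 r ∩ L) ∪ (MT H 3 r ∩ L)) ∪
      ({List.replicate (2 * r) true, List.replicate (2 * r) false} : Set (List Bool)) := by
    rintro b ⟨⟨hb, h⟩, hbL⟩
    rcases h with ⟨p, hp, hin⟩ | h | h
    · left
      obtain ⟨τ, hτ⟩ := exists_ty hH hc hp
      have hmem : b ∈ MT H τ r ∩ L := ⟨⟨hb, p, hp, hτ, hin⟩, hbL⟩
      fin_cases τ
      · exact Or.inl (Or.inl (Or.inl hmem))
      · exact Or.inl (Or.inl (Or.inr hmem))
      · exact Or.inl (Or.inr hmem)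
      · exact Or.inr hmem
    · right; left; exact h
    · right; right; exact h
  have hfin : (((MT H 0 r ∩ L) ∪ (MT H 1 r ∩ L) ∪ (MT H 2 r ∩ L) ∪ (MT H 3 r ∩ L)) ∪
      ({List.replicate (2 * r) true, List.replicate (2 * r) false} : Set (List Bool))).Finite :=
    ((((hf 0).union (hf 1)).union (hf 2)).union (hf 3)).union (Set.toFinite _)
  refine (Set.ncard_le_ncard hsub hfin).trans ?_
  have c1 := Set.ncard_union_le ((MT H 0 r ∩ L) ∪ (MT H 1 r ∩ L) ∪ (MT H 2 r ∩ L) ∪ (MT H 3 r ∩ L))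
    ({List.replicate (2 * r) true, List.replicate (2 * r) false} : Set (List Bool))
  have c2 := Set.ncard_union_le ((MT H 0 r ∩ L) ∪ (MT H 1 r ∩ L) ∪ (MT H 2 r ∩ L)) (MT H 3 r ∩ L)
  have c3 := Set.ncard_union_le ((MT H 0 r ∩ L) ∪ (MT H 1 r ∩ L)) (MT H 2 r ∩ L)
  have c4 := Set.ncard_union_le (MT H 0 r ∩ L) (MT H 1 r ∩ L)
  have c5 := Set.ncard_insert_le (List.replicate (2 * r) true) {List.replicate (2 * r) false}
  rw [Set.ncard_singleton] at c5
  have d0 := MT_count (H := H) hL 0 r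
  have d1 := MT_count (H := H) hL 1 r
  have d2 := MT_count (H := H) hL 2 r
  have d3 := MT_count (H := H) hL 3 r
  omega

end Pool.Agent.Helper47.Baker
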