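import Mathlib
import Pool.Agent.Helper47.Baker.Growth

set_option autoImplicit false

namespace Pool.Agent.Helper47.Baker

open Finset

/-- the block of positions `[a, a + 2r)` -/
def Blk (q : ℕ × ℕ) : Finset ℕ := Finset.Ico q.1 (q.1 + 2 * q.2)

lemma card_Blk (q : ℕ × ℕ) : (Blk q).card = 2 * q.2 := by simp [Blk]

/-- one dimensional Vitali covering lemma -/
lemma vitali (F : Finset (ℕ × ℕ)) : ∃ G ⊆ F, (∀ q ∈ G, ∀ q' ∈ G, q ≠ q' → Disjoint (Blk q) (Blk q')) ∧
    (F.biUnion Blk).card ≤ 3 * ∑ q ∈ G, 2 * q.2 := by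
  classical
  induction hF : F.card using Nat.strong_induction_on generalizing F with
  | _ k ih =>
    by_cases hne : F.Nonempty
    · obtain ⟨q0, hq0, hmax⟩ := F.exists_max_image (fun q => q.2) hne
      set F' := F.filter (fun q => Disjoint (Blk q) (Blk q0) ∧ q ≠ q0) with hF'
      have hlt : F'.card < k := by
        rw [← hF]
        apply Finset.card_lt_card
        refine ⟨Finset.filter_subset _ _, fun h => ?_⟩
        have := h hq0
        rw [hF', Finset.mem_filter] at this
        exact this.2.2 rfl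
      obtain ⟨G', hG'F, hdis, hcard⟩ := ih _ hlt F' rfl
      have hq0G : q0 ∉ G' := by
        intro h
        have := hG'F h
        rw [hF', Finset.mem_filter] at this
        exact this.2.2 rfl
      refine ⟨insert q0 G', ?_, ?_, ?_⟩
      · intro q hq
        rcases Finset.mem_insert.1 hq with rfl | h
        · exact hq0
        · exact (Finset.mem_filter.1 (hG'F h)).1
      · intro q hq q' hq' hne'
        rcases Finset.mem_insert.1 hq with rfl | h
        · rcases Finset.mem_insert.1 hq' with rfl | h'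
          · exact absurd rfl hne'
          · exact (Finset.mem_filter.1 (hG'F h')).2.1.symm
        · rcases Finset.mem_insert.1 hq' with rfl | h'
          · exact (Finset.mem_filter.1 (hG'F h)).2.1
          · exact hdis q h q' h' hne'
      · rw [Finset.sum_insert hq0G]
        have hsub : F.biUnion Blk ⊆ (Finset.Ico (q0.1 - 2 * q0.2) (q0.1 + 4 * q0.2)) ∪ F'.biUnion Blk := by
          intro p hp
          rw [Finset.mem_biUnion] at hp
          obtain ⟨q, hq, hpq⟩ := hp
          rw [Finset.mem_union]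
          by_cases hd : Disjoint (Blk q) (Blk q0)
          · right
            rw [Finset.mem_biUnion]
            refine ⟨q, Finset.mem_filter.2 ⟨hq, hd, ?_⟩, hpq⟩
            rintro rfl
            rw [disjoint_self] at hd
            rw [hd] at hpq
            simp at hpq
          · left
            rw [Finset.not_disjoint_iff] at hd
            obtain ⟨s, hs1, hs2⟩ := hd
            have hm := hmax q hq
            simp only [Blk, Finset.mem_Ico] at hs1 hs2 hpq ⊢
            omega
        refine (Finset.card_le_card hsub).trans ((Finset.card_union_le _ _).trans ?_)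
        have h1 : (Finset.Ico (q0.1 - 2 * q0.2) (q0.1 + 4 * q0.2)).card ≤ 6 * q0.2 := by
          rw [Nat.card_Ico]; omega
        omega
    · rw [Finset.not_nonempty_iff_eq_empty] at hne
      subst hne
      exact ⟨∅, Finset.Subset.refl _, by simp, by simp⟩

/-- a family of disjoint marked blocks in a word gives a decomposition -/
lemma dec_of_family {M : ℕ → Set (List Bool)} {m : ℕ} (hm : 1 ≤ m) (G : Finset (ℕ × ℕ)) :
    ∀ w : List Bool, (∀ q ∈ G, m ≤ q.2 ∧ q.1 + 2 * q.2 ≤ w.length ∧
      (w.drop q.1).take (2 * q.2) ∈ M q.2) →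
      (∀ q ∈ G, ∀ q' ∈ G, q ≠ q' → Disjoint (Blk q) (Blk q')) →
      Dec M m w ((∑ q ∈ G, 2 * q.2 : ℕ) : ℤ) := by
  classical
  induction hG : G.card generalizing G with
  | zero =>
    intro w _ _
    rw [Finset.card_eq_zero] at hG
    subst hG
    exact Dec.base w _ (by simp)
  | succ k ih =>
    intro w hw hdis
    have hne : G.Nonempty := by rw [← Finset.card_pos]; omega
    obtain ⟨q0, hq0, hmin⟩ := G.exists_min_image (fun q => q.1) hne
    obtain ⟨h1, h2, h3⟩ := hw q0 hq0
    set s := q0.1 + 2 * q0.2 with hs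
    have hge : ∀ q ∈ G.erase q0, s ≤ q.1 := by
      intro q hq
      have hq' := Finset.mem_of_mem_erase hq
      have hd := hdis q0 hq0 q hq' (Finset.ne_of_mem_erase hq).symm
      by_contra hcon
      have hlt := not_le.1 hcon
      have hm1 := hmin q hq'
      have hq2 := (hw q hq').1
      have m1 : q.1 ∈ Blk q0 := by simp only [Blk, Finset.mem_Ico]; omega
      have m2 : q.1 ∈ Blk q := by simp only [Blk, Finset.mem_Ico]; omega
      exact (Finset.disjoint_left.1 hd) m1 m2
    let f : ℕ × ℕ → ℕ × ℕ := fun q => (q.1 - s, q.2)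
    have hinj : Set.InjOn f (G.erase q0 : Set (ℕ × ℕ)) := by
      intro q hq q' hq' hf
      have e1 := hge q hq
      have e2 := hge q' hq'
      have e3 : (f q).1 = (f q').1 := congrArg Prod.fst hf
      have e4 : (f q).2 = (f q').2 := congrArg Prod.snd hf
      have e5 : q.1 - s = q'.1 - s := e3
      exact Prod.ext (by omega) e4
    set G' := (G.erase q0).image f with hG'
    have hcard : G'.card = k := by
      rw [hG', Finset.card_image_of_injOn hinj, Finset.card_erase_of_mem hq0, hG]; rfl
    have hrec := ih G' hcard (w.drop s) ?_ ?_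
    · have hsum : ((∑ q ∈ G', 2 * q.2 : ℕ) : ℤ) = ((∑ q ∈ G, 2 * q.2 : ℕ) : ℤ) - 2 * q0.2 := by
        rw [hG', Finset.sum_image hinj]
        have h4 := Finset.add_sum_erase G (fun q => 2 * q.2) hq0
        rw [← h4]
        push_cast
        ring
      rw [hsum] at hrec
      have h5 := Dec.step (M := M) (m := m) (w.take q0.1) ((w.drop q0.1).take (2 * q0.2)) (w.drop s)
        q0.2 _ h1 h3 hrec
      have h6 : w.take q0.1 ++ (w.drop q0.1).take (2 * q0.2) ++ w.drop s = w := by
        rw [List.append_assoc]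
        have h7 : w.drop s = (w.drop q0.1).drop (2 * q0.2) := by
          rw [List.drop_drop, hs]
        rw [h7, List.take_append_drop, List.take_append_drop]
      rwa [h6] at h5
    · intro q hq
      rw [hG', Finset.mem_image] at hq
      obtain ⟨q', hq', rfl⟩ := hq
      obtain ⟨g1, g2, g3⟩ := hw q' (Finset.mem_of_mem_erase hq')
      have e1 := hge q' hq'
      refine ⟨g1, ?_, ?_⟩
      · show q'.1 - s + 2 * q'.2 ≤ (w.drop s).length
        rw [List.length_drop]; omega
      · show ((w.drop s).drop (q'.1 - s)).take (2 * q'.2) ∈ M q'.2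
        rw [List.drop_drop]
        have : s + (q'.1 - s) = q'.1 := by omega
        rw [this]
        exact g3
    · intro q hq q' hq' hne'
      rw [hG', Finset.mem_image] at hq hq'
      obtain ⟨p, hp, rfl⟩ := hq
      obtain ⟨p', hp', rfl⟩ := hq'
      have hpp : p ≠ p' := fun h => hne' (by rw [h])
      have hd := hdis p (Finset.mem_of_mem_erase hp) p' (Finset.mem_of_mem_erase hp') hpp
      have e1 := hge p hp
      have e2 := hge p' hp'
      rw [Finset.disjoint_left] at hd ⊢
      intro t ht1 ht2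
      refine hd (a := t + s) ?_ ?_
      · simp only [Blk, Finset.mem_Ico, f] at ht1 ⊢; omega
      · simp only [Blk, Finset.mem_Ico, f] at ht2 ⊢; omega

/-- main growth theorem -/
theorem subexp {L : Set (List Bool)} (hL : Factorial L) (hne : ∀ n, (Ln L n).Nonempty)
    {M : ℕ → Set (List Bool)} (hM : ∀ r, ∀ b ∈ M r, b.length = 2 * r) {C : ℝ} (hC : 0 ≤ C)
    (hMc : ∀ r, 1 ≤ r → ((M r ∩ L).ncard : ℝ) ≤ C * NN L r)
    (hcov : ∀ m : ℕ, 1 ≤ m → ∃ c : ℕ, ∀ w ∈ L, ∃ F : Finset (ℕ × ℕ),
      (∀ q ∈ F, m ≤ q.2 ∧ q.1 + 2 * q.2 ≤ w.length ∧ (w.drop q.1).take (2 * q.2) ∈ M q.2) ∧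
      w.length ≤ (F.biUnion Blk).card + c) :
    ∀ ε : ℝ, 0 < ε → ∃ A : ℝ, ∀ n, (NN L n : ℝ) ≤ A * Real.exp (ε * n) := by
  have hpos : ∀ n, 1 ≤ NN L n := fun n =>
    (Set.ncard_pos (finite_Ln L n)).2 (hne n)
  have hposR : ∀ n, (1 : ℝ) ≤ NN L n := fun n => by exact_mod_cast hpos n
  have hsub : Subadditive (fun n => Real.log (NN L n)) := by
    intro m n
    have h1 : (NN L (m + n) : ℝ) ≤ NN L m * NN L n := by exact_mod_cast NN_submul hL m n
    have h2 := hposR m
    have h3 := hposR n
    have h4 := hposR (m + n)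
    rw [← Real.log_mul (by positivity) (by positivity)]
    exact Real.log_le_log (by positivity) h1
  have hbdd : BddBelow (Set.range fun n => Real.log (NN L n) / n) := by
    refine ⟨0, ?_⟩
    rintro _ ⟨n, rfl⟩
    exact div_nonneg (Real.log_nonneg (hposR n)) (Nat.cast_nonneg n)
  set h := hsub.lim with hh
  have hlim := hsub.tendsto_lim hbdd
  have h0 : 0 ≤ h := ge_of_tendsto' hlim fun n =>
    div_nonneg (Real.log_nonneg (hposR n)) (Nat.cast_nonneg n)
  -- upper bounds
  have hup : ∀ ε : ℝ, 0 < ε → ∃ A : ℝ, 0 < A ∧ ∀ n, (NN L n : ℝ) ≤ A * Real.exp ((h + ε) * n) := by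
    intro ε hε
    have h1 : ∀ᶠ n : ℕ in Filter.atTop, Real.log (NN L n) / n < h + ε :=
      hlim.eventually_lt_const (by linarith)
    obtain ⟨n0, hn0⟩ := Filter.eventually_atTop.1 h1
    refine ⟨1 + ∑ k ∈ range (n0 + 1), (NN L k : ℝ), by positivity, fun n => ?_⟩
    rcases le_or_gt n n0 with hn | hn
    · have h2 : (NN L n : ℝ) ≤ ∑ k ∈ range (n0 + 1), (NN L k : ℝ) :=
        Finset.single_le_sum (f := fun k => (NN L k : ℝ)) (fun k _ => Nat.cast_nonneg _)
          (Finset.mem_range.2 (by omega))
      have h3 : 1 ≤ Real.exp ((h + ε) * n) := Real.one_le_exp (by positivity)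
      have h4 : 0 ≤ ∑ k ∈ range (n0 + 1), (NN L k : ℝ) := by positivity
      nlinarith
    · have h2 := hn0 n hn.le
      have hn' : (0 : ℝ) < n := by
        have : 0 < n := by omega
        exact_mod_cast this
      rw [div_lt_iff₀ hn'] at h2
      have h3 : (NN L n : ℝ) ≤ Real.exp ((h + ε) * n) := by
        rw [← Real.log_le_iff_le_exp (by linarith [hposR n])]
        exact h2.le
      have h4 : 0 ≤ ∑ k ∈ range (n0 + 1), (NN L k : ℝ) := by positivity
      have h5 := Real.exp_pos ((h + ε) * n)
      nlinarith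
  -- lower bound
  have hlow : ∀ n : ℕ, Real.exp (h * n) ≤ NN L n := by
    intro n
    rcases Nat.eq_zero_or_pos n with rfl | hn
    · simpa using hposR 0
    · have h1 := hsub.lim_le_div hbdd hn.ne'
      have hn' : (0 : ℝ) < n := by exact_mod_cast hn
      rw [le_div_iff₀ hn'] at h1
      rw [← Real.le_log_iff_exp_le (by linarith [hposR n])]
      exact h1
  -- contradiction if h > 0
  have hzero : h = 0 := by
    by_contra hne0
    have hp : 0 < h := lt_of_le_of_ne h0 (Ne.symm hne0)
    set ε := h / 24 with hε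
    have hεp : 0 < ε := by rw [hε]; linarith
    obtain ⟨A, hA, hN⟩ := hup ε hεp
    -- choose m
    have hy0 : 0 < Real.exp (-(3 * ε)) := Real.exp_pos _
    have hy1 : Real.exp (-(3 * ε)) < 1 := by rw [Real.exp_lt_one_iff]; linarith
    have htend : Filter.Tendsto (fun m : ℕ => C * A ^ 2 * ((1 - Real.exp (-ε))⁻¹ *
      (Real.exp (-(3 * ε)) ^ m * (1 - Real.exp (-(3 * ε)))⁻¹))) Filter.atTop (nhds 0) := by
      have h1 := tendsto_pow_atTop_nhds_zero_of_lt_one hy0.le hy1
      have h2 := ((h1.mul_const ((1 - Real.exp (-(3 * ε)))⁻¹)).const_mul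
        ((1 - Real.exp (-ε))⁻¹)).const_mul (C * A ^ 2)
      simpa using h2
    have hev : ∀ᶠ m : ℕ in Filter.atTop, C * A ^ 2 * ((1 - Real.exp (-ε))⁻¹ *
      (Real.exp (-(3 * ε)) ^ m * (1 - Real.exp (-(3 * ε)))⁻¹)) ≤ 1 :=
      (htend.eventually_lt_const one_pos).mono fun _ h => h.le
    obtain ⟨m, hm1, hm⟩ := ((Filter.eventually_ge_atTop 1).and hev).exists
    obtain ⟨c, hc⟩ := hcov m hm1
    have hbound := WS_bound hL hM h0 hεp hA hC hN hm1 (fun r hr => hMc r (hm1.trans hr)) hm
    -- all words decompose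
    have hkey : ∀ n : ℕ, (NN L n : ℝ) ≤ A * Real.exp ((h + 2 * ε) * n - h / 2 * ((n - c) / 3)) := by
      intro n
      set T : ℤ := ⌈((n : ℝ) - c) / 3⌉ with hT
      have hall : Ln L n ⊆ WS L M m n T := by
        rintro w ⟨hw, hlen⟩
        refine ⟨hw, hlen, ?_⟩
        obtain ⟨F, hF, hFc⟩ := hc w hw
        obtain ⟨G, hGF, hdis, hcard⟩ := vitali F
        have hd := dec_of_family hm1 G w (fun q hq => hF q (hGF hq)) hdis
        have hTle : T ≤ ((∑ q ∈ G, 2 * q.2 : ℕ) : ℤ) := by
          rw [hT, Int.ceil_le]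
          have h1 : n ≤ 3 * (∑ q ∈ G, 2 * q.2) + c := by omega
          have h2 : (n : ℝ) ≤ 3 * ((∑ q ∈ G, 2 * q.2 : ℕ) : ℝ) + c := by exact_mod_cast h1
          have h3 : (((∑ q ∈ G, 2 * q.2 : ℕ) : ℤ) : ℝ) = ((∑ q ∈ G, 2 * q.2 : ℕ) : ℝ) := by
            norm_cast
          rw [h3]
          linarith
        -- monotonicity of Dec
        have hmono : ∀ (w : List Bool) (T1 : ℤ), Dec M m w T1 → ∀ T2 ≤ T1, Dec M m w T2 := by
          intro w T1 hdec
          induction hdec with
          | base w T h => intro T2 hT2; exact Dec.base w T2 (by omega)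
          | step g b w r T hr hb _ ihd =>
            intro T2 hT2
            exact Dec.step g b w r T2 hr hb (ihd _ (by omega))
        exact hmono w _ hd T hTle
      have h1 : (NN L n : ℝ) ≤ (WS L M m n T).ncard := by
        exact_mod_cast Set.ncard_le_ncard hall (finite_WS L M m n T)
      refine h1.trans ((hbound n T).trans ?_)
      apply mul_le_mul_of_nonneg_left _ hA.le
      apply Real.exp_le_exp.2
      have h2 : ((n : ℝ) - c) / 3 ≤ T := Int.le_ceil _
      nlinarith
    -- growth contradiction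
    have hfin : ∀ n : ℕ, Real.exp (h / 12 * n) ≤ A * Real.exp (h / 6 * c) := by
      intro n
      have h1 := (hlow n).trans (hkey n)
      have e1 : Real.exp (h * n) = Real.exp (h / 12 * n) * Real.exp (11 * h / 12 * n) := by
        rw [← Real.exp_add]; congr 1; ring
      have e2 : Real.exp ((h + 2 * ε) * n - h / 2 * ((n - c) / 3)) =
          Real.exp (h / 6 * c) * Real.exp (11 * h / 12 * n) := by
        rw [← Real.exp_add, hε]; congr 1; ring
      rw [e1, e2, ← mul_assoc] at h1
      exact le_of_mul_le_mul_right h1 (Real.exp_pos _)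
    have htop : Filter.Tendsto (fun n : ℕ => Real.exp (h / 12 * n)) Filter.atTop Filter.atTop := by
      refine Real.tendsto_exp_atTop.comp ?_
      exact tendsto_natCast_atTop_atTop.const_mul_atTop (by linarith)
    obtain ⟨n, hn⟩ := (htop.eventually_gt_atTop (A * Real.exp (h / 6 * c))).exists
    exact absurd (hfin n) (not_le.2 hn)
  intro ε hε
  obtain ⟨A, _, hA⟩ := hup ε hε
  refine ⟨A, fun n => ?_⟩
  have := hA n
  rwa [hzero, zero_add] at this

end Pool.Agent.Helper47.Baker
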