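import Mathlib
import Pool.Agent.Helper47.Baker.Geometry
import Pool.Agent.Helper47.Baker.Vitali

set_option autoImplicit false

namespace Pool.Agent.Helper47.Baker

open Set

/-- admissible sequences -/
def YH (H : Set (ℝ × ℝ)) : Set (ℤ → Bool) := {u | ∀ k, PP u k ∉ H}

/-- language of the admissible sequences -/
def Lang (H : Set (ℝ × ℝ)) : Set (List Bool) := {w | ∃ u ∈ YH H, ∃ a, w = word u a w.length}

lemma factorial_Lang (H : Set (ℝ × ℝ)) : Factorial (Lang H) := by
  rintro a b c ⟨u, hu, s, hw⟩
  refine ⟨u, hu, s + a.length, ?_⟩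
  have h1 : b = ((a ++ b ++ c).drop a.length).take b.length := by simp
  conv_lhs => rw [h1, hw]
  rw [word_drop _ _ (by simp), word_take _ _ (by simp)]

lemma Ln_nonempty {H : Set (ℝ × ℝ)} (h : (YH H).Nonempty) (n : ℕ) : (Ln (Lang H) n).Nonempty := by
  obtain ⟨u, hu⟩ := h
  exact ⟨word u 0 n, ⟨u, hu, 0, by rw [word_length]⟩, word_length _ _ _⟩

/-- the cycle condition in symbolic form -/
def SymTrap (H : Set (ℝ × ℝ)) : Prop := ∀ (v : ℤ → Bool) (p : ℕ), 1 ≤ p → (∀ k, v (k + p) = v k) →
  (∃ k l, v k ≠ v l) → ∃ k, PP v k ∈ closure H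

lemma periodic_ext {u : ℤ → Bool} {I J : ℤ} {m p : ℕ} (hp : 1 ≤ p) (hJ : J = I + p)
    (hctx : word u (I - m) (2 * m) = word u (J - m) (2 * m)) :
    let v : ℤ → Bool := fun k => u (I + (k - I) % p)
    (∀ k, v (k + p) = v k) ∧ ∀ k, I - m ≤ k → k < J + m → v k = u k := by
  intro v
  have hper : ∀ k, v (k + p) = v k := by
    intro k
    show u (I + (k + p - I) % p) = u (I + (k - I) % p)
    have : k + p - I = (k - I) + p := by ring
    rw [this, Int.add_emod_right]
  have hc : ∀ s : ℤ, 0 ≤ s → s < 2 * m → u (I - m + s) = u (J - m + s) := by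
    intro s h1 h2
    exact word_eq_imp hctx s h1 (by push_cast; exact h2)
  have hfwd : ∀ d : ℕ, I + d < J + m → v (I + d) = u (I + d) := by
    intro d
    induction d using Nat.strong_induction_on with
    | _ d ih =>
      intro hd
      by_cases hdp : d < p
      · show u (I + (I + d - I) % p) = u (I + d)
        have e : (I + d - I : ℤ) % p = d := by
          rw [add_sub_cancel_left]
          exact Int.emod_eq_of_lt (by positivity) (by exact_mod_cast hdp)
        rw [e]
      · have h1 : p ≤ d := not_lt.1 hdp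
        have h2 := ih (d - p) (by omega) (by
          rw [Nat.cast_sub h1]
          omega)
        have e1 : (I + ((d - p : ℕ) : ℤ)) + p = I + d := by
          rw [Nat.cast_sub h1]; ring
        have h3 := hper (I + ((d - p : ℕ) : ℤ))
        rw [e1] at h3
        rw [h3, h2]
        have h4 := hc (m + ((d - p : ℕ) : ℤ)) (by positivity) (by
          rw [Nat.cast_sub h1]
          omega)
        have e2 : I - m + (m + ((d - p : ℕ) : ℤ)) = I + ((d - p : ℕ) : ℤ) := by ring
        have e3 : J - m + (m + ((d - p : ℕ) : ℤ)) = I + d := by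
          rw [hJ, Nat.cast_sub h1]; ring
        rwa [e2, e3] at h4
  have hbwd : ∀ d : ℕ, d < m → v (I - 1 - d) = u (I - 1 - d) := by
    intro d
    induction d using Nat.strong_induction_on with
    | _ d ih =>
      intro hd
      have h3 := hper (I - 1 - d)
      have h4 := hc ((m : ℤ) - 1 - d) (by omega) (by omega)
      have e2 : I - m + ((m : ℤ) - 1 - d) = I - 1 - d := by ring
      have e3 : J - m + ((m : ℤ) - 1 - d) = I - 1 - d + p := by rw [hJ]; ring
      rw [e2, e3] at h4
      rw [← h3, h4]
      by_cases hdp : d < p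
      · have h5 := hfwd (p - 1 - d) (by
          rw [Nat.cast_sub (by omega), Nat.cast_sub (by omega)]
          push_cast
          omega)
        have e4 : I + ((p - 1 - d : ℕ) : ℤ) = I - 1 - d + p := by
          rw [Nat.cast_sub (by omega), Nat.cast_sub (by omega)]
          push_cast; ring
        rwa [e4] at h5
      · have h5 := ih (d - p) (by omega) (by omega)
        have e4 : I - 1 - ((d - p : ℕ) : ℤ) = I - 1 - d + p := by
          rw [Nat.cast_sub (by omega)]; ring
        rwa [e4] at h5
  refine ⟨hper, fun k h1 h2 => ?_⟩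
  by_cases hk : I ≤ k
  · have := hfwd (k - I).toNat (by
      rw [Int.toNat_of_nonneg (by omega)]; omega)
    rw [Int.toNat_of_nonneg (by omega)] at this
    have e : I + (k - I) = k := by ring
    rwa [e] at this
  · have := hbwd (I - 1 - k).toNat (by omega)
    rw [Int.toNat_of_nonneg (by omega)] at this
    have e : I - 1 - (I - 1 - k) = k := by ring
    rwa [e] at this

lemma PP_periodic {v : ℤ → Bool} {p : ℕ} (hper : ∀ k, v (k + p) = v k) (k : ℤ) (c : ℤ) :
    PP v (k + c * p) = PP v k := by
  have h1 : ∀ (k c : ℤ), v (k + c * p) = v k := by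
    intro k c
    induction c using Int.induction_on with
    | zero => simp
    | succ c ih =>
      have : k + ((c : ℤ) + 1) * p = (k + c * p) + p := by ring
      rw [this, hper, ih]
    | pred c ih =>
      have : k + (-(c : ℤ)) * p = (k + (-(c : ℤ) - 1) * p) + p := by ring
      rw [this, hper] at ih
      exact ih
  unfold PP
  have e1 : (fun n : ℕ => v (k + c * p + n)) = fun n : ℕ => v (k + n) := by
    funext n
    have : k + c * p + n = (k + n) + c * p := by ring
    rw [this, h1]
  have e2 : (fun n : ℕ => v (k + c * p - 1 - n)) = fun n : ℕ => v (k - 1 - n) := by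
    funext n
    have : k + c * p - 1 - n = (k - 1 - n) + c * p := by ring
    rw [this, h1]
  rw [e1, e2]

lemma word_const {u : ℤ → Bool} {a : ℤ} {n : ℕ} {b : Bool} (h : ∀ k, a ≤ k → k < a + n → u k = b) :
    word u a n = List.replicate n b := by
  induction n generalizing a with
  | zero => rfl
  | succ n ih =>
    rw [word, List.replicate_succ, h a le_rfl (by push_cast; omega),
      ih (fun k h1 h2 => h k (by omega) (by push_cast; omega))]

lemma find_block {H : Set (ℝ × ℝ)} (hH : RelOpen H) (htrap : SymTrap H) {u : ℤ → Bool}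
    (hu : u ∈ YH H) {a0 : ℤ} {n m i j : ℕ} (hm : 1 ≤ m) (hij : i < j) (hi : m ≤ i) (hj : j + m ≤ n)
    (hctx : word u (a0 + i - m) (2 * m) = word u (a0 + j - m) (2 * m)) :
    ∃ s r : ℕ, m ≤ r ∧ s + 2 * r ≤ n ∧ word u (a0 + s) (2 * r) ∈ MK H r ∧
      (i ∈ Blk (s, r) ∨ j ∈ Blk (s, r)) := by
  set p := j - i with hp
  have hp1 : 1 ≤ p := by omega
  have hJ : a0 + (j : ℤ) = a0 + i + (p : ℕ) := by
    rw [hp, Nat.cast_sub hij.le]; ring
  obtain ⟨hper, hagree⟩ := periodic_ext (I := a0 + i) (J := a0 + j) hp1 hJ hctx
  set v : ℤ → Bool := fun k => u (a0 + i + (k - (a0 + i)) % p) with hv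
  by_cases hcon : ∃ k l, v k ≠ v l
  · obtain ⟨k, hk⟩ := htrap v p hp1 hper hcon
    -- move k into the fundamental window
    have hppos : (0 : ℤ) < p := by exact_mod_cast hp1
    set d := ((k - (a0 + i)) % p).toNat with hd
    have hdnn : 0 ≤ (k - (a0 + i)) % p := Int.emod_nonneg _ hppos.ne'
    have hdlt : (k - (a0 + i)) % p < p := Int.emod_lt_of_pos _ hppos
    have hdc : (d : ℤ) = (k - (a0 + i)) % p := Int.toNat_of_nonneg hdnn
    have hk' : PP v (a0 + i + d) ∈ closure H := by
      have h1 := PP_periodic hper (a0 + i + d) ((k - (a0 + i)) / p)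
      have e : a0 + i + d + (k - (a0 + i)) / p * p = k := by
        rw [hdc]
        have := Int.emod_add_mul_ediv (k - (a0 + i)) p
        linarith
      rw [e] at h1
      rw [← h1]; exact hk
    have hdp : d < p := by omega
    set r := min d (p - d) + m with hr
    refine ⟨i + d - r, r, by omega, by omega, ?_, ?_⟩
    · have e1 : a0 + ((i + d - r : ℕ) : ℤ) = (a0 + i + d) - r := by
        rw [Nat.cast_sub (by omega)]; push_cast; ring
      rw [e1]
      have hw : word u (a0 + i + d - r) (2 * r) = word v (a0 + i + d - r) (2 * r) := by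
        apply word_congr
        intro l h1 h2
        refine (hagree l ?_ ?_).symm
        · omega
        · push_cast at h2; omega
      refine ⟨word_length _ _ _, Or.inl ?_⟩
      refine exists_boundary hH (word_length _ _ _) (p := PP v (a0 + i + d))
        (q := PP u (a0 + i + d)) ?_ hk' (inSq_word _ _ _) (hu _)
      rw [hw]
      exact inSq_word _ _ _
    · simp only [Blk, Finset.mem_Ico]
      rcases le_total d (p - d) with h | h
      · left; omega
      · right; omega
  · push Not at hcon
    refine ⟨i - m, m, le_rfl, by omega, ?_, ?_⟩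
    · have e1 : a0 + ((i - m : ℕ) : ℤ) = a0 + i - m := by
        rw [Nat.cast_sub hi]; ring
      rw [e1]
      have hw : word u (a0 + i - m) (2 * m) = List.replicate (2 * m) (v 0) := by
        apply word_const
        intro k h1 h2
        rw [← hagree k (by omega) (by push_cast at h2; omega)]
        exact hcon k 0
      refine ⟨word_length _ _ _, Or.inr ?_⟩
      rw [hw]
      cases v 0
      · right; rfl
      · left; rfl
    · left
      simp only [Blk, Finset.mem_Ico]; omega

theorem cover {H : Set (ℝ × ℝ)} (hH : RelOpen H) (htrap : SymTrap H) (m : ℕ) (hm : 1 ≤ m) :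
    ∃ c : ℕ, ∀ w ∈ Lang H, ∃ F : Finset (ℕ × ℕ),
      (∀ q ∈ F, m ≤ q.2 ∧ q.1 + 2 * q.2 ≤ w.length ∧ (w.drop q.1).take (2 * q.2) ∈ MK H q.2) ∧
      w.length ≤ (F.biUnion Blk).card + c := by
  classical
  refine ⟨2 ^ (2 * m) + 2 * m, ?_⟩
  rintro w ⟨u, hu, a0, hw⟩
  set n := w.length with hn
  set F := (Finset.range (n + 1) ×ˢ Finset.range (n + 1)).filter (fun q => m ≤ q.2 ∧
    q.1 + 2 * q.2 ≤ n ∧ (w.drop q.1).take (2 * q.2) ∈ MK H q.2) with hF
  refine ⟨F, fun q hq => (Finset.mem_filter.1 hq).2, ?_⟩
  have hsub : ∀ q : ℕ × ℕ, q.1 + 2 * q.2 ≤ n →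
      (w.drop q.1).take (2 * q.2) = word u (a0 + q.1) (2 * q.2) := by
    intro q hq
    rw [hw, word_drop _ _ (by omega), word_take _ _ (by omega)]
  set U := (Finset.range n).filter (fun i => i ∉ F.biUnion Blk) with hU
  have h1 : n ≤ (F.biUnion Blk).card + U.card := by
    have h2 : Finset.range n ⊆ F.biUnion Blk ∪ U := by
      intro i hi
      rw [Finset.mem_union]
      by_cases h : i ∈ F.biUnion Blk
      · exact Or.inl h
      · exact Or.inr (Finset.mem_filter.2 ⟨hi, h⟩)
    have h3 := (Finset.card_le_card h2).trans (Finset.card_union_le _ _)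
    rwa [Finset.card_range] at h3
  have h2 : U.card ≤ 2 ^ (2 * m) + 2 * m := by
    set V := U.filter (fun i => m ≤ i ∧ i + m ≤ n) with hV
    have h3 : U ⊆ V ∪ (Finset.range m ∪ Finset.Ico (n - m) n) := by
      intro i hi
      have hi' := Finset.mem_range.1 (Finset.mem_filter.1 hi).1
      rw [Finset.mem_union, Finset.mem_union, Finset.mem_range, Finset.mem_Ico]
      by_cases hc : m ≤ i ∧ i + m ≤ n
      · left; exact Finset.mem_filter.2 ⟨hi, hc⟩
      · right; omega
    have h4 : V.card ≤ 2 ^ (2 * m) := by
      rw [← Finset.card_range (2 ^ (2 * m))]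
      apply Finset.card_le_card_of_injOn (fun i : ℕ => nv (word u (a0 + i - m) (2 * m)))
      · intro i _
        have := nv_lt (word u (a0 + i - m) (2 * m))
        rw [word_length] at this
        simpa using this
      · intro i hi j hj hij
        have hctx : word u (a0 + i - m) (2 * m) = word u (a0 + j - m) (2 * m) :=
          nv_inj _ _ (by rw [word_length, word_length]) hij
        obtain ⟨hiU, hi1, hi2⟩ := Finset.mem_filter.1 (Finset.mem_coe.1 hi)
        obtain ⟨hjU, hj1, hj2⟩ := Finset.mem_filter.1 (Finset.mem_coe.1 hj)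
        have hiU' := (Finset.mem_filter.1 hiU).2
        have hjU' := (Finset.mem_filter.1 hjU).2
        have key : ∀ i j : ℕ, i < j → m ≤ i → j + m ≤ n →
            word u (a0 + i - m) (2 * m) = word u (a0 + j - m) (2 * m) →
            i ∈ F.biUnion Blk ∨ j ∈ F.biUnion Blk := by
          intro i j hij hi hj hctx
          obtain ⟨s, r, hmr, hsr, hMK, hor⟩ := find_block hH htrap hu hm hij hi hj hctx
          have hmem : (s, r) ∈ F := by
            rw [hF, Finset.mem_filter, Finset.mem_product, Finset.mem_range, Finset.mem_range]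
            refine ⟨⟨?_, ?_⟩, hmr, hsr, ?_⟩
            · simp only; omega
            · simp only; omega
            · rw [hsub (s, r) hsr]
              exact hMK
          rcases hor with h | h
          · left; exact Finset.mem_biUnion.2 ⟨_, hmem, h⟩
          · right; exact Finset.mem_biUnion.2 ⟨_, hmem, h⟩
        rcases lt_trichotomy i j with h | h | h
        · rcases key i j h hi1 hj2 hctx with h' | h'
          · exact absurd h' hiU'
          · exact absurd h' hjU'
        · exact h
        · rcases key j i h hj1 hi2 hctx.symm with h' | h'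
          · exact absurd h' hjU'
          · exact absurd h' hiU'
    refine (Finset.card_le_card h3).trans ((Finset.card_union_le _ _).trans ?_)
    have h5 : (Finset.range m ∪ Finset.Ico (n - m) n).card ≤ 2 * m := by
      refine (Finset.card_union_le _ _).trans ?_
      rw [Finset.card_range, Nat.card_Ico]; omega
    omega
  omega

theorem growth {H : Set (ℝ × ℝ)} (hH : RelOpen H) (hc : Convex ℝ H) (htrap : SymTrap H)
    (hne : (YH H).Nonempty) (ε : ℝ) (hε : 0 < ε) :
    ∃ A : ℝ, ∀ n, (NN (Lang H) n : ℝ) ≤ A * Real.exp (ε * n) := by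
  refine subexp (factorial_Lang H) (Ln_nonempty hne) (M := MK H) (fun r b hb => hb.1)
    (C := 14) (by norm_num) (fun r _ => ?_) (fun m hm => cover hH htrap m hm) ε hε
  exact_mod_cast MK_count hH hc (factorial_Lang H) (Ln_nonempty hne) r

end Pool.Agent.Helper47.Baker
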