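import Mathlib
import Pool.Agent.Helper47.Baker.Cover

set_option autoImplicit false

namespace Pool.Agent.Helper47.Baker

open Set Filter
open scoped ENNReal NNReal Topology MeasureTheory

lemma coded_sub {H : Set (ℝ × ℝ)} {p : ℝ × ℝ} (hp : p ∈ codedSurvivor H) :
    ∃ u ∈ YH H, p = PP u 1 := by
  obtain ⟨u, hpu, hu⟩ := hp
  refine ⟨u, fun k => ?_, ?_⟩
  · rw [← code_shift]; exact hu (k - 1)
  · rw [← code_shift, hpu]; simp

lemma ediam_sq (r : ℕ) (b : List Bool) : Metric.ediam {p | InSq r b p} ≤ ENNReal.ofReal (1 / 2 ^ r) := by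
  apply Metric.ediam_le
  rintro p ⟨⟨a1, a2⟩, a3, a4⟩ q ⟨⟨b1, b2⟩, b3, b4⟩
  rw [edist_dist]
  apply ENNReal.ofReal_le_ofReal
  rw [Prod.dist_eq, Real.dist_eq, Real.dist_eq, max_le_iff, abs_le, abs_le]
  refine ⟨⟨?_, ?_⟩, ?_, ?_⟩ <;> linarith

theorem dim_coded {H : Set (ℝ × ℝ)}
    (hg : ∀ ε : ℝ, 0 < ε → ∃ A : ℝ, ∀ n, (NN (Lang H) n : ℝ) ≤ A * Real.exp (ε * n)) :
    dimH (codedSurvivor H) = 0 := by
  have hmeas : ∀ d : ℝ≥0, 0 < d → μH[(d : ℝ)] (codedSurvivor H) = 0 := by
    intro d hd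
    have hd' : (0 : ℝ) < d := by exact_mod_cast hd
    have hlog : 0 < Real.log 2 := Real.log_pos one_lt_two
    obtain ⟨A, hA⟩ := hg (d * Real.log 2 / 4) (by positivity)
    have hfin : ∀ n, Finite (Ln (Lang H) (2 * n)) := fun n => finite_Ln _ _
    have : ∀ n, Fintype (Ln (Lang H) (2 * n)) := fun n => Fintype.ofFinite _
    have h1 := MeasureTheory.Measure.hausdorffMeasure_le_liminf_sum (X := ℝ × ℝ)
      (ι := fun n : ℕ => Ln (Lang H) (2 * n)) (d : ℝ) (codedSurvivor H) (l := atTop)
      (fun n : ℕ => ENNReal.ofReal (1 / 2 ^ n)) (by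
        have h2 : Tendsto (fun n : ℕ => (1 : ℝ) / 2 ^ n) atTop (𝓝 0) := by
          have := tendsto_pow_atTop_nhds_zero_of_lt_one (r := (1 / 2 : ℝ)) (by norm_num) (by norm_num)
          refine this.congr (fun n => ?_)
          rw [one_div_pow]
        have := ENNReal.tendsto_ofReal h2
        rwa [ENNReal.ofReal_zero] at this)
      (fun n b => {p | InSq n b.1 p}) (Eventually.of_forall fun n b => ediam_sq n b.1)
      (Eventually.of_forall fun n => by
        intro p hp
        obtain ⟨u, hu, rfl⟩ := coded_sub hp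
        rw [mem_iUnion]
        refine ⟨⟨word u (1 - n) (2 * n), ⟨u, hu, 1 - n, by rw [word_length]⟩, word_length _ _ _⟩, ?_⟩
        exact inSq_word u 1 n)
    refine le_antisymm (h1.trans ?_) bot_le
    have hbound : ∀ n : ℕ, ∑ b : Ln (Lang H) (2 * n), Metric.ediam {p | InSq n b.1 p} ^ (d : ℝ) ≤
        ENNReal.ofReal (A * Real.exp (-(d * Real.log 2 / 2 * n))) := by
      intro n
      have h2 : ∑ b : Ln (Lang H) (2 * n), Metric.ediam {p | InSq n b.1 p} ^ (d : ℝ) ≤
          ∑ _b : Ln (Lang H) (2 * n), (ENNReal.ofReal (1 / 2 ^ n)) ^ (d : ℝ) :=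
        Finset.sum_le_sum fun b _ => ENNReal.rpow_le_rpow (ediam_sq n b.1) hd'.le
      refine h2.trans ?_
      rw [Finset.sum_const, Finset.card_univ, nsmul_eq_mul,
        ENNReal.ofReal_rpow_of_nonneg (by positivity) hd'.le]
      have h3 : ((Fintype.card (Ln (Lang H) (2 * n)) : ℕ) : ℝ≥0∞) =
          ENNReal.ofReal (NN (Lang H) (2 * n) : ℝ) := by
        rw [ENNReal.ofReal_natCast, NN, Set.ncard_eq_toFinset_card', Set.toFinset_card]
      rw [h3, ← ENNReal.ofReal_mul (Nat.cast_nonneg _)]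
      apply ENNReal.ofReal_le_ofReal
      have h4 := hA (2 * n)
      have h5 : (1 / 2 ^ n : ℝ) ^ (d : ℝ) = Real.exp (-(d * Real.log 2 * n)) := by
        rw [Real.rpow_def_of_pos (by positivity), one_div, Real.log_inv, Real.log_pow]
        congr 1; ring
      rw [h5]
      have h6 : (A * Real.exp (d * Real.log 2 / 4 * (2 * n : ℕ))) * Real.exp (-(d * Real.log 2 * n)) =
          A * Real.exp (-(d * Real.log 2 / 2 * n)) := by
        rw [mul_assoc, ← Real.exp_add]
        congr 2
        push_cast; ring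
      rw [← h6]
      exact mul_le_mul_of_nonneg_right h4 (Real.exp_pos _).le
    refine (liminf_le_liminf (Eventually.of_forall hbound)).trans ?_
    have htend : Tendsto (fun n : ℕ => ENNReal.ofReal (A * Real.exp (-(d * Real.log 2 / 2 * n))))
        atTop (𝓝 0) := by
      have h2 : Tendsto (fun n : ℕ => A * Real.exp (-(d * Real.log 2 / 2 * n))) atTop (𝓝 (A * 0)) := by
        refine Tendsto.const_mul A ?_
        refine Real.tendsto_exp_neg_atTop_nhds_zero.comp ?_
        exact tendsto_natCast_atTop_atTop.const_mul_atTop (by positivity)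
      rw [mul_zero] at h2
      have := ENNReal.tendsto_ofReal h2
      rwa [ENNReal.ofReal_zero] at this
    rw [htend.liminf_eq]
  by_contra hne
  have hpos : 0 < dimH (codedSurvivor H) := pos_iff_ne_zero.2 hne
  obtain ⟨d, hd0, hd⟩ := ENNReal.lt_iff_exists_nnreal_btwn.1 hpos
  have hd0' : 0 < d := by exact_mod_cast hd0
  have h1 : dimH (codedSurvivor H) ≤ d := by
    apply dimH_le_of_hausdorffMeasure_ne_top
    rw [hmeas d hd0']
    exact ENNReal.zero_ne_top
  exact absurd hd (not_lt.2 h1)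

lemma VS_lt_one {s : ℕ → Bool} {n : ℕ} (h : s n = false) : VS s < 1 := by
  induction n generalizing s with
  | zero =>
    rw [VS_cons, h]
    have := VS_le_one (fun n => s (n + 1))
    simp [dig]; linarith
  | succ n ih =>
    rw [VS_cons]
    have h1 := ih (s := fun n => s (n + 1)) h
    have := dig_le_one (s 0)
    linarith

lemma VS_pos {s : ℕ → Bool} {n : ℕ} (h : s n = true) : 0 < VS s := by
  induction n generalizing s with
  | zero =>
    rw [VS_cons, h]
    have := VS_nonneg (fun n => s (n + 1))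
    simp [dig]; linarith
  | succ n ih =>
    rw [VS_cons]
    have h1 := ih (s := fun n => s (n + 1)) h
    have := dig_nonneg (s 0)
    linarith

lemma VS_step (v : ℤ → Bool) (k : ℤ) :
    VS (fun n => v (k + n)) = (dig (v k) + VS (fun n => v (k + 1 + n))) / 2 := by
  rw [VS_cons]
  have e1 : (fun n : ℕ => v (k + ((n + 1 : ℕ) : ℤ))) = fun n : ℕ => v (k + 1 + n) := by
    funext n; congr 1; push_cast; ring
  rw [e1]; simp

lemma VS_step' (v : ℤ → Bool) (k : ℤ) :
    VS (fun n => v (k + 1 - 1 - n)) = (dig (v k) + VS (fun n => v (k - 1 - n))) / 2 := by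
  rw [VS_cons]
  have e1 : (fun n : ℕ => v (k + 1 - 1 - ((n + 1 : ℕ) : ℤ))) = fun n : ℕ => v (k - 1 - n) := by
    funext n; congr 1; push_cast; ring
  have e2 : v (k + 1 - 1 - ((0 : ℕ) : ℤ)) = v k := by congr 1; simp
  rw [e1, e2]

lemma baker_PP {v : ℤ → Bool} {k : ℤ} (h : VS (fun n => v (k + 1 + n)) < 1) :
    baker (PP v k) = PP v (k + 1) := by
  have h1 := VS_step v k
  have h2 := VS_step' v k
  have h3 := VS_nonneg (fun n => v (k + 1 + n))
  unfold baker PP
  simp only
  cases hk : v k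
  · rw [hk] at h1 h2
    have hd : dig false = 0 := rfl
    rw [hd] at h1 h2
    rw [if_pos (by rw [h1]; linarith)]
    refine Prod.ext ?_ ?_
    · show 2 * _ = _
      rw [h1]; ring
    · show _ / 2 = _
      rw [h2]; ring
  · rw [hk] at h1 h2
    have hd : dig true = 1 := rfl
    rw [hd] at h1 h2
    rw [if_neg (by rw [h1]; linarith)]
    refine Prod.ext ?_ ?_
    · show 2 * _ - 1 = _
      rw [h1]; ring
    · show (_ + 1) / 2 = _
      rw [h2]; ring

lemma periodic_all {v : ℤ → Bool} {p : ℕ} (hper : ∀ k, v (k + p) = v k) (k : ℤ) (c : ℕ) :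
    v (k + c * p) = v k := by
  induction c with
  | zero => simp
  | succ c ih =>
    have : k + ((c + 1 : ℕ) : ℤ) * p = (k + c * p) + p := by push_cast; ring
    rw [this, hper, ih]

lemma exists_future {v : ℤ → Bool} {p : ℕ} (hp : 1 ≤ p) (hper : ∀ k, v (k + p) = v k)
    (l k : ℤ) : ∃ n : ℕ, v (k + n) = v l := by
  have h1 : (0 : ℤ) ≤ l + ((k - l).toNat : ℕ) * p - k := by
    have h2 : (k - l) ≤ ((k - l).toNat : ℤ) := Int.self_le_toNat _
    have h3 : (((k - l).toNat : ℕ) : ℤ) * 1 ≤ ((k - l).toNat : ℕ) * p :=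
      mul_le_mul_of_nonneg_left (by exact_mod_cast hp) (by positivity)
    linarith
  refine ⟨(l + ((k - l).toNat : ℕ) * p - k).toNat, ?_⟩
  rw [Int.toNat_of_nonneg h1]
  have e : k + (l + ((k - l).toNat : ℕ) * p - k) = l + ((k - l).toNat : ℕ) * p := by ring
  rw [e, periodic_all hper]

theorem symTrap_of {H : Set (ℝ × ℝ)}
    (hcyc : ∀ p ∈ Sq, ∀ n : ℕ, 1 ≤ n → baker^[n] p = p → baker p ≠ p →
      ∃ k : ℕ, baker^[k] p ∈ closure H) : SymTrap H := by
  intro v p hp hper ⟨k1, k2, hk⟩
  have hft : (∃ l, v l = false) ∧ ∃ l, v l = true := by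
    cases h1 : v k1 <;> cases h2 : v k2
    · rw [h1, h2] at hk; exact absurd rfl hk
    · exact ⟨⟨k1, h1⟩, ⟨k2, h2⟩⟩
    · exact ⟨⟨k2, h2⟩, ⟨k1, h1⟩⟩
    · rw [h1, h2] at hk; exact absurd rfl hk
  obtain ⟨⟨l0, hl0⟩, l1, hl1⟩ := hft
  have hlt : ∀ k : ℤ, VS (fun n => v (k + n)) < 1 := by
    intro k
    obtain ⟨n, hn⟩ := exists_future hp hper l0 k
    exact VS_lt_one (n := n) (hn.trans hl0)
  have hgt : ∀ k : ℤ, 0 < VS (fun n => v (k + n)) := by
    intro k
    obtain ⟨n, hn⟩ := exists_future hp hper l1 k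
    exact VS_pos (n := n) (hn.trans hl1)
  have hstep : ∀ k : ℤ, baker (PP v k) = PP v (k + 1) := fun k => baker_PP (hlt (k + 1))
  have hiter : ∀ (n : ℕ) (k : ℤ), baker^[n] (PP v k) = PP v (k + n) := by
    intro n
    induction n with
    | zero => intro k; simp
    | succ n ih =>
      intro k
      rw [Function.iterate_succ_apply, hstep, ih]
      congr 1; push_cast; ring
  have hpp : PP v (0 + p) = PP v 0 := by
    have := PP_periodic hper 0 1
    simpa using this
  have hne : baker (PP v 0) ≠ PP v 0 := by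
    rw [hstep]
    intro h
    have h1 := VS_step v 0
    have h2 : VS (fun n => v (0 + 1 + n)) = VS (fun n => v (0 + n)) := congrArg Prod.fst h
    rw [h2] at h1
    have h3 := hlt 0
    have h4 := hgt 0
    cases hv : v 0
    · rw [hv] at h1
      have hd : dig false = 0 := rfl
      rw [hd] at h1; linarith
    · rw [hv] at h1
      have hd : dig true = 1 := rfl
      rw [hd] at h1; linarith
  obtain ⟨k, hk⟩ := hcyc (PP v 0) (PP_mem v 0) p hp (by rw [hiter, hpp]) hne
  rw [hiter] at hk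
  exact ⟨_, hk⟩

lemma eq_VS {f : ℕ → ℝ} {s : ℕ → Bool} (h0 : ∀ n, 0 ≤ f n) (h1 : ∀ n, f n ≤ 1)
    (h : ∀ n, f n = (dig (s n) + f (n + 1)) / 2) : f 0 = VS s := by
  have key : ∀ n, f 0 - VS s = (f n - VS (fun j => s (j + n))) / 2 ^ n := by
    intro n
    induction n with
    | zero => simp
    | succ n ih =>
      rw [ih, h n, VS_cons (fun j => s (j + n)), pow_succ]
      have e : (fun j : ℕ => s (j + 1 + n)) = fun j => s (j + (n + 1)) := by
        funext j; congr 1; ring
      rw [e, zero_add]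
      field_simp
      ring
  have hb : ∀ n : ℕ, |f 0 - VS s| ≤ (1 / 2) ^ n := by
    intro n
    rw [key n, abs_div, abs_of_pos (show (0 : ℝ) < 2 ^ n by positivity), one_div_pow]
    apply div_le_div_of_nonneg_right _ (by positivity)
    rw [abs_le]
    have a1 := VS_nonneg (fun j => s (j + n))
    have a2 := VS_le_one (fun j => s (j + n))
    constructor <;> linarith [h0 n, h1 n]
  have htend := tendsto_pow_atTop_nhds_zero_of_lt_one (r := (1 / 2 : ℝ)) (by norm_num) (by norm_num)
  have h2 : |f 0 - VS s| ≤ 0 := ge_of_tendsto' htend hb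
  have h3 := abs_nonpos_iff.1 h2
  linarith

theorem survivor_sub (H : Set (ℝ × ℝ)) : survivor H ⊆ codedSurvivor H := by
  rintro p ⟨o, ho0, ho⟩
  let u : ℤ → Bool := fun k => decide (1 / 2 ≤ (o (k - 1)).1)
  have hx : ∀ k : ℤ, (o (k - 1)).1 = (dig (u k) + (o k).1) / 2 := by
    intro k
    have h1 := (ho (k - 1)).2.1
    rw [sub_add_cancel] at h1
    rw [← h1]
    unfold baker
    by_cases hc : (o (k - 1)).1 < 1 / 2
    · have : u k = false := decide_eq_false (not_le.2 hc)
      rw [if_pos hc, this]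
      simp [dig]
    · have : u k = true := decide_eq_true (not_lt.1 hc)
      rw [if_neg hc, this]
      simp [dig]
  have hy : ∀ k : ℤ, (o k).2 = (dig (u k) + (o (k - 1)).2) / 2 := by
    intro k
    have h1 := (ho (k - 1)).2.1
    rw [sub_add_cancel] at h1
    rw [← h1]
    unfold baker
    by_cases hc : (o (k - 1)).1 < 1 / 2
    · have : u k = false := decide_eq_false (not_le.2 hc)
      rw [if_pos hc, this]
      simp [dig]
    · have : u k = true := decide_eq_true (not_lt.1 hc)
      rw [if_neg hc, this]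
      simp [dig]; ring
  have hPP : ∀ k : ℤ, PP u (k + 1) = o k := by
    intro k
    refine Prod.ext ?_ ?_
    · show VS (fun n => u (k + 1 + n)) = (o k).1
      have h1 := eq_VS (f := fun n : ℕ => (o (k + n)).1) (s := fun n => u (k + 1 + n))
        (fun n => (ho _).1.1.1) (fun n => (ho _).1.1.2) (fun n => by
          have h2 := hx (k + 1 + n)
          have e1 : k + 1 + n - 1 = k + n := by ring
          have e2 : k + ((n + 1 : ℕ) : ℤ) = k + 1 + n := by push_cast; ring
          show (o (k + n)).1 = (dig (u (k + 1 + n)) + (o (k + ((n + 1 : ℕ) : ℤ))).1) / 2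
          rw [e2, ← h2, e1])
      rw [← h1]; simp
    · show VS (fun n => u (k + 1 - 1 - n)) = (o k).2
      have h1 := eq_VS (f := fun n : ℕ => (o (k - n)).2) (s := fun n => u (k + 1 - 1 - n))
        (fun n => (ho _).1.2.1) (fun n => (ho _).1.2.2) (fun n => by
          have h2 := hy (k - n)
          have e1 : k + 1 - 1 - n = k - n := by ring
          have e2 : k - ((n + 1 : ℕ) : ℤ) = k - n - 1 := by push_cast; ring
          show (o (k - n)).2 = (dig (u (k + 1 - 1 - n)) + (o (k - ((n + 1 : ℕ) : ℤ))).2) / 2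
          rw [e2, e1, ← h2])
      rw [← h1]; simp
  refine ⟨u, ?_, fun n => ?_⟩
  · have h1 := code_shift u 1
    have h2 := hPP 0
    rw [zero_add] at h2
    simp only [sub_self, add_zero] at h1
    rw [h1, h2, ho0]
  · have h1 := code_shift u (n + 1)
    rw [add_sub_cancel_right] at h1
    rw [h1, hPP]
    exact (ho n).2.2

theorem main {H : Set (ℝ × ℝ)} (hH : RelOpen H) (hc : Convex ℝ H)
    (hcyc : ∀ p ∈ Sq, ∀ n : ℕ, 1 ≤ n → baker^[n] p = p → baker p ≠ p →
      ∃ k : ℕ, baker^[k] p ∈ closure H) :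
    dimH (survivor H) = 0 ∧ dimH (codedSurvivor H) = 0 := by
  have h2 : dimH (codedSurvivor H) = 0 := by
    by_cases hne : (YH H).Nonempty
    · exact dim_coded (fun ε hε => growth hH hc (symTrap_of hcyc) hne ε hε)
    · have : codedSurvivor H = ∅ := by
        rw [Set.eq_empty_iff_forall_notMem]
        intro p hp
        obtain ⟨u, hu, _⟩ := coded_sub hp
        exact hne ⟨u, hu⟩
      rw [this]; exact dimH_empty
  exact ⟨le_antisymm ((dimH_mono (survivor_sub H)).trans h2.le) bot_le, h2⟩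

end Pool.Agent.Helper47.Baker
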